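import Mathlib

/-!
# The lattice of a non-real quadratic base and the last digits of its points
-/

set_option autoImplicit false

open Complex

namespace Pool.Agent.Hhelper68.Gauss

/-- The lattice `a₂ ℤ + (a₂ α + a₁) ℤ`. -/
def Lam (α : ℂ) (a1 a2 : ℤ) : AddSubgroup ℂ where
  carrier := {z | ∃ u v : ℤ, z = u * (a2 : ℂ) + v * (a2 * α + a1)}
  add_mem' := by
    rintro _ _ ⟨u, v, rfl⟩ ⟨u', v', rfl⟩
    exact ⟨u + u', v + v', by push_cast; ring⟩
  zero_mem' := ⟨0, 0, by simp⟩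
  neg_mem' := by
    rintro _ ⟨u, v, rfl⟩
    exact ⟨-u, -v, by push_cast; ring⟩

theorem mem_Lam {α : ℂ} {a1 a2 : ℤ} {z : ℂ} :
    z ∈ Lam α a1 a2 ↔ ∃ u v : ℤ, z = u * (a2 : ℂ) + v * (a2 * α + a1) := Iff.rfl

/-- The standing assumptions: `α` is a non-real root of the primitive integral polynomial
`a₂ X² + a₁ X + a₀`, `a₂ > 0`, and `|α| > 1`. -/
structure Base (α : ℂ) (a0 a1 a2 : ℤ) : Prop where
  im_ne : α.im ≠ 0
  norm_gt : 1 < ‖α‖
  a2_pos : 0 < a2
  coprime : Int.gcd a0 (Int.gcd a1 a2) = 1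
  root : (a2 : ℂ) * α ^ 2 + a1 * α + a0 = 0

namespace Base

variable {α : ℂ} {a0 a1 a2 : ℤ} (h : Base α a0 a1 a2)

include h

theorem ne_zero : α ≠ 0 := by
  intro h0
  have := h.im_ne
  rw [h0] at this
  simp at this

theorem a0_eq : (a0 : ℝ) = a2 * ‖α‖ ^ 2 := by
  have hr := congrArg Complex.re h.root
  have hi := congrArg Complex.im h.root
  simp [pow_two] at hr hi
  have h1 : α.im * (2 * a2 * α.re + a1) = 0 := by linear_combination hi
  have h2 : (2 * a2 * α.re + a1 : ℝ) = 0 := (mul_eq_zero.mp h1).resolve_left h.im_ne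
  rw [Complex.sq_norm, Complex.normSq_apply]
  linear_combination hr - α.re * h2

theorem a0_pos : 0 < a0 := by
  have h1 := h.a0_eq
  have h2 : (0 : ℝ) < a2 := by exact_mod_cast h.a2_pos
  have h3 : (0 : ℝ) < ‖α‖ := by linarith [h.norm_gt]
  have : (0 : ℝ) < a0 := by rw [h1]; positivity
  exact_mod_cast this

theorem bezout : ∃ r s t : ℤ, r * a0 + s * a1 + t * a2 = 1 := by
  have h1 := Int.gcd_eq_gcd_ab a0 (Int.gcd a1 a2)
  have h2 := Int.gcd_eq_gcd_ab a1 a2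
  rw [h.coprime] at h1
  refine ⟨Int.gcdA a0 (Int.gcd a1 a2), Int.gcdA a1 a2 * Int.gcdB a0 (Int.gcd a1 a2),
    Int.gcdB a1 a2 * Int.gcdB a0 (Int.gcd a1 a2), ?_⟩
  have h3 : (1 : ℤ) = a0 * Int.gcdA a0 (Int.gcd a1 a2) +
      (a1 * Int.gcdA a1 a2 + a2 * Int.gcdB a1 a2) * Int.gcdB a0 (Int.gcd a1 a2) := by
    rw [← h2]
    exact_mod_cast h1
  linear_combination -h3

end Base

/-- the order `ℤ + a₂ α ℤ` -/
def Ord (α : ℂ) (a2 : ℤ) (z : ℂ) : Prop := ∃ u v : ℤ, z = u + v * (a2 * α)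

section
variable {α : ℂ} {a0 a1 a2 : ℤ}

theorem Ord.one : Ord α a2 1 := ⟨1, 0, by simp⟩

theorem Ord.of_Lam {z : ℂ} (hz : z ∈ Lam α a1 a2) : Ord α a2 z := by
  obtain ⟨u, v, rfl⟩ := hz
  exact ⟨u * a2 + v * a1, v, by push_cast; ring⟩

variable (h : Base α a0 a1 a2)
include h

theorem Ord.of_mul_Lam {z : ℂ} (hz : z ∈ Lam α a1 a2) : Ord α a2 (α * z) := by
  obtain ⟨u, v, rfl⟩ := hz
  refine ⟨-v * a0, u, ?_⟩
  push_cast
  linear_combination (v : ℂ) * h.root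

theorem Ord.mul {y z : ℂ} (hy : Ord α a2 y) (hz : Ord α a2 z) : Ord α a2 (y * z) := by
  obtain ⟨u, v, rfl⟩ := hy
  obtain ⟨s, t, rfl⟩ := hz
  refine ⟨u * s - v * t * a0 * a2, u * t + v * s - v * t * a1, ?_⟩
  push_cast
  linear_combination (v * t * a2 : ℂ) * h.root

theorem Ord.pow {y : ℂ} (hy : Ord α a2 y) (n : ℕ) : Ord α a2 (y ^ n) := by
  induction n with
  | zero => rw [pow_zero]; exact Ord.one
  | succ n ih => rw [pow_succ]; exact Ord.mul h ih hy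

theorem Ord.mul_Lam {y z : ℂ} (hy : Ord α a2 y) (hz : z ∈ Lam α a1 a2) : y * z ∈ Lam α a1 a2 := by
  obtain ⟨u, v, rfl⟩ := hy
  obtain ⟨s, t, rfl⟩ := hz
  refine ⟨u * s - v * s * a1 - v * t * a0, u * t + v * s * a2, ?_⟩
  push_cast
  linear_combination (v * t * a2 : ℂ) * h.root

/-- `Λ` and `α Λ` are comaximal. -/
theorem exists_comax : ∃ s t : ℂ, s ∈ Lam α a1 a2 ∧ t ∈ Lam α a1 a2 ∧ s + α * t = 1 := by
  obtain ⟨r, s, t, hrst⟩ := h.bezout
  have hc : (r * a0 + s * a1 + t * a2 : ℂ) = 1 := by exact_mod_cast hrst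
  refine ⟨t * a2 + s * (a2 * α + a1), ((-s : ℤ) : ℂ) * a2 + ((-r : ℤ) : ℂ) * (a2 * α + a1),
    ⟨t, s, rfl⟩, ⟨-s, -r, rfl⟩, ?_⟩
  push_cast
  linear_combination hc - (r : ℂ) * h.root

/-- An integer in `α Λ` is divisible by `a₀`. -/
theorem dvd_of_mem {d : ℤ} {z : ℂ} (hz : z ∈ Lam α a1 a2) (hd : (d : ℂ) = α * z) : a0 ∣ d := by
  obtain ⟨u, v, rfl⟩ := hz
  have h1 : (d : ℂ) = -v * a0 + u * (a2 * α) := by
    rw [hd]; linear_combination (v : ℂ) * h.root
  have him := congrArg Complex.im h1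
  have ha2 : (a2 : ℝ) ≠ 0 := by exact_mod_cast h.a2_pos.ne'
  simp at him
  have hu : (u : ℝ) = 0 := by
    rcases him with h2 | h2 | h2
    · exact_mod_cast h2
    · exact absurd (by exact_mod_cast h2) ha2
    · exact absurd h2 h.im_ne
  have hu' : u = 0 := by exact_mod_cast hu
  rw [hu'] at h1
  refine ⟨-v, ?_⟩
  have : (d : ℂ) = ((a0 * -v : ℤ) : ℂ) := by
    rw [h1]; push_cast; ring
  exact_mod_cast this

/-- Existence of the last digit. -/
theorem exists_digit {z : ℂ} (hz : z ∈ Lam α a1 a2) :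
    ∃ (d : ℤ) (m : ℂ), 0 ≤ d ∧ d < |a0| ∧ m ∈ Lam α a1 a2 ∧ z = α * m + d := by
  obtain ⟨u, v, rfl⟩ := hz
  have ha0 := h.a0_pos
  refine ⟨(u * a2 + v * a1) % a0, v * a2 + ((-((u * a2 + v * a1) / a0) : ℤ) : ℂ) *
    (a2 * α + a1), Int.emod_nonneg _ ha0.ne', ?_, ⟨v, _, rfl⟩, ?_⟩
  · rw [abs_of_pos ha0]
    exact Int.emod_lt_of_pos _ ha0
  · have h1 : ((u * a2 + v * a1 : ℤ) : ℂ) = ((a0 * ((u * a2 + v * a1) / a0) +
        (u * a2 + v * a1) % a0 : ℤ) : ℂ) := by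
      rw [Int.mul_ediv_add_emod]
    push_cast at h1 ⊢
    linear_combination h1 + (((u * a2 + v * a1) / a0 : ℤ) : ℂ) * h.root

end

/-- `Suf α a1 a2 v L N`: the last `L` digits of `N` are `v (L-1), …, v 1, v 0`. -/
def Suf (α : ℂ) (a1 a2 : ℤ) (v : ℕ → ℤ) (L : ℕ) (N : ℂ) : Prop :=
  ∃ M : ℕ → ℂ, M 0 = N ∧ (∀ i ≤ L, M i ∈ Lam α a1 a2) ∧ ∀ i < L, M i = α * M (i + 1) + v i

section
variable {α : ℂ} {a0 a1 a2 : ℤ}

theorem Suf.mem {v : ℕ → ℤ} {L : ℕ} {N : ℂ} (h : Suf α a1 a2 v L N) : N ∈ Lam α a1 a2 := by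
  obtain ⟨M, rfl, hM, -⟩ := h
  exact hM 0 (Nat.zero_le _)

theorem Suf.translate {v w : ℕ → ℤ} {L : ℕ} {N N' P : ℂ} (h : Suf α a1 a2 v L N)
    (h' : Suf α a1 a2 v L N') (h'' : Suf α a1 a2 w L P) : Suf α a1 a2 w L (N - N' + P) := by
  obtain ⟨M, rfl, hM, hM'⟩ := h
  obtain ⟨M1, rfl, hM1, hM1'⟩ := h'
  obtain ⟨M2, rfl, hM2, hM2'⟩ := h''
  refine ⟨fun i => M i - M1 i + M2 i, rfl, fun i hi => ?_, fun i hi => ?_⟩
  · exact (Lam α a1 a2).add_mem ((Lam α a1 a2).sub_mem (hM i hi) (hM1 i hi)) (hM2 i hi)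
  · simp only
    rw [hM' i hi, hM1' i hi, hM2' i hi]
    ring

variable (h : Base α a0 a1 a2)
include h

theorem Suf.unique {L : ℕ} : ∀ {v w : ℕ → ℤ} {N : ℂ},
    (∀ i < L, 0 ≤ v i ∧ v i < |a0|) → (∀ i < L, 0 ≤ w i ∧ w i < |a0|) →
    Suf α a1 a2 v L N → Suf α a1 a2 w L N → ∀ i < L, v i = w i := by
  induction L with
  | zero => intro v w N _ _ _ _ i hi; omega
  | succ L ih =>
    intro v w N hv hw h1 h2
    obtain ⟨M, hM0, hM, hM'⟩ := h1
    obtain ⟨P, hP0, hP, hP'⟩ := h2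
    have e1 := hM' 0 (Nat.succ_pos _)
    have e2 := hP' 0 (Nat.succ_pos _)
    have e3 : ((v 0 - w 0 : ℤ) : ℂ) = α * (P 1 - M 1) := by
      push_cast
      rw [hM0, ← hP0, e2] at e1
      linear_combination -e1
    have e4 : a0 ∣ v 0 - w 0 := dvd_of_mem h
      ((Lam α a1 a2).sub_mem (hP 1 (by omega)) (hM 1 (by omega))) e3
    have e5 : v 0 = w 0 := by
      have h3 := hv 0 (Nat.succ_pos _)
      have h4 := hw 0 (Nat.succ_pos _)
      have h5 : |v 0 - w 0| < |a0| := by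
        rw [abs_lt]; constructor <;> linarith
      have := Int.eq_zero_of_abs_lt_dvd e4 (by
        rw [abs_of_pos h.a0_pos] at h5
        exact h5)
      linarith
    have e6 : P 1 = M 1 := by
      rw [e5, sub_self, Int.cast_zero] at e3
      have := (mul_eq_zero.mp e3.symm).resolve_left h.ne_zero
      exact sub_eq_zero.mp this
    intro i hi
    cases i with
    | zero => exact e5
    | succ i =>
      refine ih (v := fun i => v (i + 1)) (w := fun i => w (i + 1)) (N := M 1)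
        (fun i hi => hv (i + 1) (by omega)) (fun i hi => hw (i + 1) (by omega))
        ⟨fun i => M (i + 1), rfl, fun i hi => hM (i + 1) (by omega),
          fun i hi => hM' (i + 1) (by omega)⟩
        ⟨fun i => P (i + 1), e6, fun i hi => hP (i + 1) (by omega),
          fun i hi => hP' (i + 1) (by omega)⟩ i (by omega)

/-- All words occur as last digits. -/
theorem Suf.exists (v : ℕ → ℤ) (L : ℕ) : ∃ N, Suf α a1 a2 v L N := by
  obtain ⟨s, t, hs, ht, hst⟩ := exists_comax h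
  have hpow : ∀ n : ℕ, ∃ w ∈ Lam α a1 a2, s ^ n = 1 - α * w := by
    intro n
    induction n with
    | zero => exact ⟨0, (Lam α a1 a2).zero_mem, by simp⟩
    | succ n ih =>
      obtain ⟨w, hw, hw'⟩ := ih
      refine ⟨t + s * w, (Lam α a1 a2).add_mem ht (Ord.mul_Lam h (Ord.of_Lam hs) hw), ?_⟩
      rw [pow_succ, hw']
      linear_combination hst
  have hmem : ∀ j k : ℕ, α ^ j * s ^ (j + k + 1) ∈ Lam α a1 a2 := by
    intro j k
    have : α ^ j * s ^ (j + k + 1) = ((α * s) ^ j * s ^ k) * s := by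
      rw [mul_pow]; ring
    rw [this]
    exact Ord.mul_Lam h (Ord.mul h (Ord.pow h (Ord.of_mul_Lam h hs) j)
      (Ord.pow h (Ord.of_Lam hs) k)) hs
  induction L with
  | zero => exact ⟨0, fun _ => 0, rfl, fun i _ => (Lam α a1 a2).zero_mem, fun i hi => by omega⟩
  | succ L ih =>
    obtain ⟨N, M, hM0, hM, hM'⟩ := ih
    obtain ⟨d, P, -, -, hP, hd⟩ := exists_digit h (hM L le_rfl)
    obtain ⟨w, hw, hw'⟩ := hpow (L + 1)
    set c : ℤ := v L - d with hc
    have hint : ∀ (m : ℤ) {z : ℂ}, z ∈ Lam α a1 a2 → (m : ℂ) * z ∈ Lam α a1 a2 := by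
      intro m z hz
      have := (Lam α a1 a2).zsmul_mem hz m
      rwa [zsmul_eq_mul] at this
    refine ⟨M 0 + c * (α ^ L * s ^ (L + 1)),
      fun i => if i ≤ L then M i + c * (α ^ (L - i) * s ^ (L + 1)) else P - c * w, ?_, ?_, ?_⟩
    · simp
    · intro i hi
      simp only
      split_ifs with hiL
      · apply (Lam α a1 a2).add_mem (hM i hiL)
        apply hint
        have := hmem (L - i) i
        rwa [Nat.sub_add_cancel hiL] at this
      · exact (Lam α a1 a2).sub_mem hP (hint c hw)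
    · intro i hi
      simp only
      rcases Nat.lt_or_ge i L with hiL | hiL
      · rw [if_pos hiL.le, if_pos (by omega), hM' i hiL]
        have : L - i = (L - (i + 1)) + 1 := by omega
        rw [this, pow_succ]
        ring
      · have hiL' : i = L := by omega
        subst hiL'
        rw [if_pos le_rfl, if_neg (by omega), Nat.sub_self, pow_zero, one_mul, hw', hd, hc]
        push_cast
        ring

end

end Pool.Agent.Hhelper68.Gauss
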