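import Mathlib
import Pool.Agent.Hhelper68.Gauss.Lattice

/-!
# Counting lattice points with prescribed last digits
-/

set_option autoImplicit false

open Complex

namespace Pool.Agent.Hhelper68.Gauss

/-- Finiteness and a real bound for the cardinality. -/
def CardLe {X : Type*} (S : Set X) (c : ℝ) : Prop := S.Finite ∧ (S.ncard : ℝ) ≤ c

theorem CardLe.mono {X : Type*} {S T : Set X} {c d : ℝ} (h : CardLe T c) (hST : S ⊆ T)
    (hcd : c ≤ d) : CardLe S d := by
  refine ⟨h.1.subset hST, ?_⟩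
  have : (S.ncard : ℝ) ≤ T.ncard := by exact_mod_cast Set.ncard_le_ncard hST h.1
  exact this.trans (h.2.trans hcd)

theorem CardLe.nonneg {X : Type*} {S : Set X} {c : ℝ} (h : CardLe S c) : 0 ≤ c :=
  (Nat.cast_nonneg _).trans h.2

theorem CardLe.biUnion {X Y : Type*} {S : Set X} {T : Set Y} {a b : ℝ} (hS : CardLe S a)
    (B : X → Set Y) (hb0 : 0 ≤ b) (hB : ∀ x ∈ S, CardLe (B x) b) (hT : ∀ y ∈ T, ∃ x ∈ S, y ∈ B x) :
    CardLe T (a * b) := by
  classical
  have hsub : T ⊆ ⋃ x ∈ S, B x := by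
    intro y hy
    obtain ⟨x, hx, hxy⟩ := hT y hy
    exact Set.mem_biUnion hx hxy
  have hfin : (⋃ x ∈ S, B x).Finite := hS.1.biUnion fun x hx => (hB x hx).1
  refine ⟨hfin.subset hsub, ?_⟩
  have h1 : (T.ncard : ℝ) ≤ (⋃ x ∈ S, B x).ncard := by
    exact_mod_cast Set.ncard_le_ncard hsub hfin
  refine h1.trans ?_
  set s := hS.1.toFinset with hs
  have hBfin : ∀ x, ∃ t : Finset Y, x ∈ S → (t : Set Y) = B x := by
    intro x
    by_cases hx : x ∈ S
    · exact ⟨(hB x hx).1.toFinset, fun _ => by simp⟩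
    · exact ⟨∅, fun h => absurd h hx⟩
  choose t ht using hBfin
  have h2 : (⋃ x ∈ S, B x) = ((s.biUnion t : Finset Y) : Set Y) := by
    ext y
    simp only [Set.mem_iUnion, Finset.coe_biUnion, exists_prop, hs, Set.Finite.coe_toFinset]
    constructor
    · rintro ⟨x, hx, hy⟩
      exact ⟨x, hx, by rw [ht x hx]; exact hy⟩
    · rintro ⟨x, hx, hy⟩
      exact ⟨x, hx, by rw [← ht x hx]; exact hy⟩
  rw [h2, Set.ncard_coe_finset]
  calc ((s.biUnion t).card : ℝ) ≤ ∑ x ∈ s, ((t x).card : ℝ) := by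
        exact_mod_cast Finset.card_biUnion_le
    _ ≤ ∑ x ∈ s, b := by
        apply Finset.sum_le_sum
        intro x hx
        have hx' : x ∈ S := by rw [hs, Set.Finite.mem_toFinset] at hx; exact hx
        have := (hB x hx').2
        rwa [← ht x hx', Set.ncard_coe_finset] at this
    _ = s.card * b := by rw [Finset.sum_const, nsmul_eq_mul]
    _ ≤ a * b := by
        have : (s.card : ℝ) ≤ a := by
          have := hS.2
          rwa [Set.ncard_eq_toFinset_card _ hS.1] at this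
        gcongr

/-- integers `n` with `|n c - x| ≤ R` -/
theorem card_int {c : ℝ} (hc : 0 < c) (x R : ℝ) (hR : 0 ≤ R) :
    CardLe {n : ℤ | |n * c - x| ≤ R} (2 * R / c + 1) := by
  have hsub : {n : ℤ | |n * c - x| ≤ R} ⊆ (Finset.Icc ⌈(x - R) / c⌉ ⌊(x + R) / c⌋ : Finset ℤ) := by
    intro n hn
    rw [Set.mem_ofPred_eq, abs_le] at hn
    rw [Finset.coe_Icc, Set.mem_Icc, Int.ceil_le, Int.le_floor, div_le_iff₀ hc, le_div_iff₀ hc]
    constructor <;> linarith
  refine ⟨(Finset.finite_toSet _).subset hsub, ?_⟩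
  have h1 : ({n : ℤ | |n * c - x| ≤ R}.ncard : ℝ) ≤
      ((Finset.Icc ⌈(x - R) / c⌉ ⌊(x + R) / c⌋ : Finset ℤ) : Set ℤ).ncard := by
    exact_mod_cast Set.ncard_le_ncard hsub (Finset.finite_toSet _)
  refine h1.trans ?_
  rw [Set.ncard_coe_finset, Int.card_Icc]
  have h2 : ((⌊(x + R) / c⌋ + 1 - ⌈(x - R) / c⌉ : ℤ) : ℝ) ≤ 2 * R / c + 1 := by
    push_cast
    have h3 := Int.floor_le ((x + R) / c)
    have h4 := Int.le_ceil ((x - R) / c)
    have h5 : (x + R) / c - (x - R) / c = 2 * R / c := by field_simp; ring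
    linarith
  have h6 : (0 : ℝ) ≤ 2 * R / c + 1 := by positivity
  have h7 : (((⌊(x + R) / c⌋ + 1 - ⌈(x - R) / c⌉).toNat : ℤ) : ℝ) ≤ 2 * R / c + 1 := by
    rw [Int.toNat_eq_max]
    push_cast
    apply max_le
    · push_cast at h2; exact h2
    · exact h6
  exact_mod_cast h7

variable {α : ℂ} {a0 a1 a2 : ℤ}

/-- constant in the lattice point count -/
noncomputable def C0 (α : ℂ) (a2 : ℤ) : ℝ := (2 / (a2 * |α.im|) + 1) * (2 / a2 + 1)

theorem C0_pos (h : Base α a0 a1 a2) : 0 < C0 α a2 := by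
  have ha2 : (0 : ℝ) < a2 := by exact_mod_cast h.a2_pos
  have him : 0 < |α.im| := abs_pos.mpr h.im_ne
  unfold C0
  positivity

/-- integers `n` with `|n c - x| ≤ R`, `c ≠ 0` -/
theorem card_int' {c : ℝ} (hc : c ≠ 0) (x R : ℝ) (hR : 0 ≤ R) :
    CardLe {n : ℤ | |n * c - x| ≤ R} (2 * R / |c| + 1) := by
  rcases lt_or_gt_of_ne hc with h | h
  · have := card_int (neg_pos.mpr h) (-x) R hR
    rw [← abs_of_neg h] at this
    refine this.mono ?_ le_rfl
    intro n hn
    rw [Set.mem_ofPred_eq] at hn ⊢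
    rw [abs_of_neg h]
    have e : (n : ℝ) * -c - -x = -(n * c - x) := by ring
    rw [e, abs_neg]
    exact hn
  · have := card_int h x R hR
    rwa [abs_of_pos h]

/-- lattice points in a disc -/
theorem card_disc (h : Base α a0 a1 a2) (z : ℂ) {R : ℝ} (hR : 0 ≤ R) :
    CardLe {N : ℂ | N ∈ Lam α a1 a2 ∧ ‖N - z‖ ≤ R} (C0 α a2 * (R + 1) ^ 2) := by
  have ha2 : (0 : ℝ) < a2 := by exact_mod_cast h.a2_pos
  have him : 0 < |α.im| := abs_pos.mpr h.im_ne
  have hcd : (a2 : ℝ) * α.im ≠ 0 := mul_ne_zero ha2.ne' h.im_ne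
  have hV := card_int' hcd z.im R hR
  rw [abs_mul, abs_of_pos ha2] at hV
  have key : CardLe {N : ℂ | N ∈ Lam α a1 a2 ∧ ‖N - z‖ ≤ R}
      ((2 * R / (a2 * |α.im|) + 1) * (2 * R / a2 + 1)) := by
    refine CardLe.biUnion hV (fun v => {N : ℂ | ∃ u : ℤ, N = u * (a2 : ℂ) +
      v * (a2 * α + a1) ∧ ‖N - z‖ ≤ R}) (by positivity) ?_ ?_
    · intro v _
      have hU := card_int ha2 (z.re - v * (a2 * α.re + a1)) R hR
      have := CardLe.biUnion hU (fun u => {N : ℂ | N = u * (a2 : ℂ) + v * (a2 * α + a1)})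
        (b := 1) (T := {N : ℂ | ∃ u : ℤ, N = u * (a2 : ℂ) + v * (a2 * α + a1) ∧ ‖N - z‖ ≤ R})
        zero_le_one (fun u _ => ⟨Set.finite_singleton _, by
          have : {N : ℂ | N = u * (a2 : ℂ) + v * (a2 * α + a1)} =
            {(u * (a2 : ℂ) + v * (a2 * α + a1) : ℂ)} := rfl
          rw [this, Set.ncard_singleton]; norm_num⟩) (by
          rintro N ⟨u, hN, hNz⟩
          refine ⟨u, ?_, hN⟩
          rw [Set.mem_ofPred_eq]
          have h1 : |(N - z).re| ≤ R := (Complex.abs_re_le_norm _).trans hNz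
          rw [hN] at h1
          simp at h1
          have e : (u : ℝ) * a2 - (z.re - v * (a2 * α.re + a1)) =
              u * a2 + v * (a2 * α.re + a1) - z.re := by ring
          rw [e]
          exact h1)
      rwa [mul_one] at this
    · rintro N ⟨⟨u, v, hN⟩, hNz⟩
      refine ⟨v, ?_, u, hN, hNz⟩
      rw [Set.mem_ofPred_eq]
      have h1 : |(N - z).im| ≤ R := (Complex.abs_im_le_norm _).trans hNz
      rw [hN] at h1
      simp at h1
      exact h1
  refine key.mono le_rfl ?_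
  unfold C0
  have e1 : 2 * R / (a2 * |α.im|) + 1 ≤ (2 / (a2 * |α.im|) + 1) * (R + 1) := by
    have : 2 * R / (a2 * |α.im|) = 2 / (a2 * |α.im|) * R := by ring
    rw [this]
    have h2 : 0 ≤ 2 / ((a2 : ℝ) * |α.im|) := by positivity
    nlinarith
  have e2 : 2 * R / (a2 : ℝ) + 1 ≤ (2 / a2 + 1) * (R + 1) := by
    have : 2 * R / (a2 : ℝ) = 2 / a2 * R := by ring
    rw [this]
    have h2 : 0 ≤ 2 / (a2 : ℝ) := by positivity
    nlinarith
  calc (2 * R / (a2 * |α.im|) + 1) * (2 * R / a2 + 1)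
      ≤ ((2 / (a2 * |α.im|) + 1) * (R + 1)) * ((2 / a2 + 1) * (R + 1)) := by
        gcongr
    _ = _ := by ring

/-- digit words, extended by zero -/
def extd {q L : ℕ} (v : Fin L → Fin q) (i : ℕ) : ℤ := if h : i < L then (v ⟨i, h⟩ : ℕ) else 0

/-- Lattice points in a disc with prescribed last digits. -/
theorem card_suf (h : Base α a0 a1 a2) (L : ℕ) : ∃ B : ℝ, 0 ≤ B ∧ ∀ (v : ℕ → ℤ),
    (∀ i < L, 0 ≤ v i ∧ v i < |a0|) → ∀ (z : ℂ) (R : ℝ), 0 ≤ R →
    CardLe {N : ℂ | Suf α a1 a2 v L N ∧ ‖N - z‖ ≤ R}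
      (C0 α a2 * (R + B + 1) ^ 2 / (a0.natAbs : ℝ) ^ L) := by
  classical
  set q := a0.natAbs with hq
  have hqa : (q : ℤ) = |a0| := by rw [hq, Int.abs_eq_natAbs]
  have hq0 : 0 < q := by
    have := h.a0_pos
    omega
  -- representatives
  choose rep hrep using fun v : Fin L → Fin q => Suf.exists h (extd v) L
  have hdig : ∀ v : Fin L → Fin q, ∀ i < L, 0 ≤ extd v i ∧ extd v i < |a0| := by
    intro v i hi
    unfold extd
    rw [dif_pos hi, ← hqa]
    constructor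
    · positivity
    · exact_mod_cast (v ⟨i, hi⟩).2
  obtain ⟨B, hB⟩ : ∃ B : ℝ, ∀ v, ‖rep v‖ ≤ B := by
    obtain ⟨B, hB⟩ := (Set.finite_range (fun v => ‖rep v‖)).bddAbove
    exact ⟨B, fun v => hB ⟨v, rfl⟩⟩
  have hB0 : 0 ≤ B := by
    have : Nonempty (Fin q) := ⟨⟨0, hq0⟩⟩
    exact (norm_nonneg _).trans (hB (fun _ => Classical.arbitrary _))
  refine ⟨2 * B, by positivity, fun v hv z R hR => ?_⟩
  -- the word as an element of `Fin L → Fin q`
  have hvq : ∀ i < L, (v i).toNat < q := by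
    intro i hi
    have h1 := hv i hi
    rw [← hqa] at h1
    omega
  set v' : Fin L → Fin q := fun i => ⟨(v i).toNat, hvq i i.2⟩ with hv'
  have hvv : ∀ i < L, extd v' i = v i := by
    intro i hi
    unfold extd
    rw [dif_pos hi, hv']
    simp only
    exact Int.toNat_of_nonneg (hv i hi).1
  have hcongr : ∀ {w w' : ℕ → ℤ} {N : ℂ}, (∀ i < L, w i = w' i) → Suf α a1 a2 w L N →
      Suf α a1 a2 w' L N := by
    rintro w w' N hww ⟨M, h1, h2, h3⟩
    exact ⟨M, h1, h2, fun i hi => by rw [h3 i hi, hww i hi]⟩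
  set S : Set ℂ := {N : ℂ | Suf α a1 a2 v L N ∧ ‖N - z‖ ≤ R} with hS
  have hbig := card_disc h z (R := R + 2 * B) (by positivity)
  set D : Set ℂ := {N : ℂ | N ∈ Lam α a1 a2 ∧ ‖N - z‖ ≤ R + 2 * B} with hD
  have hSD : S ⊆ D := by
    rintro N ⟨h1, h2⟩
    exact ⟨h1.mem, by linarith⟩
  have hSfin : S.Finite := hbig.1.subset hSD
  refine ⟨hSfin, ?_⟩
  -- the injection
  set Φ : (Fin L → Fin q) × ℂ → ℂ := fun x => x.2 - rep v' + rep x.1 with hΦ
  have hmaps : Set.MapsTo Φ (Set.univ ×ˢ S) D := by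
    rintro ⟨w, N⟩ ⟨-, hN1, hN2⟩
    have hs : Suf α a1 a2 (extd w) L (N - rep v' + rep w) :=
      Suf.translate (hcongr (fun i hi => (hvv i hi).symm) hN1) (hrep v') (hrep w)
    refine ⟨hs.mem, ?_⟩
    simp only [hΦ]
    calc ‖N - rep v' + rep w - z‖ = ‖(N - z) + (rep w - rep v')‖ := by ring_nf
      _ ≤ ‖N - z‖ + ‖rep w - rep v'‖ := norm_add_le _ _
      _ ≤ R + (‖rep w‖ + ‖rep v'‖) := add_le_add hN2 (norm_sub_le _ _)
      _ ≤ R + 2 * B := by linarith [hB w, hB v']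
  have hinj : Set.InjOn Φ (Set.univ ×ˢ S) := by
    rintro ⟨w, N⟩ ⟨-, hN1, hN2⟩ ⟨w', N'⟩ ⟨-, hN1', hN2'⟩ heq
    simp only [hΦ] at heq
    have hs : Suf α a1 a2 (extd w) L (N - rep v' + rep w) :=
      Suf.translate (hcongr (fun i hi => (hvv i hi).symm) hN1) (hrep v') (hrep w)
    have hs' : Suf α a1 a2 (extd w') L (N' - rep v' + rep w') :=
      Suf.translate (hcongr (fun i hi => (hvv i hi).symm) hN1') (hrep v') (hrep w')
    rw [← heq] at hs'
    have hw := Suf.unique h (hdig w) (hdig w') hs hs'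
    have hww : w = w' := by
      funext i
      have := hw i i.2
      unfold extd at this
      rw [dif_pos i.2, dif_pos i.2] at this
      exact Fin.ext (by exact_mod_cast this)
    subst hww
    have : N = N' := by linear_combination heq
    rw [this]
  have hcard : (Set.univ ×ˢ S : Set ((Fin L → Fin q) × ℂ)).ncard ≤ D.ncard :=
    Set.ncard_le_ncard_of_injOn Φ hmaps hinj hbig.1
  rw [Set.ncard_prod, Set.ncard_univ, Nat.card_eq_fintype_card, Fintype.card_fun,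
    Fintype.card_fin, Fintype.card_fin] at hcard
  have hqL : (0 : ℝ) < (q : ℝ) ^ L := by positivity
  rw [le_div_iff₀ hqL]
  calc (S.ncard : ℝ) * (q : ℝ) ^ L = ((q ^ L * S.ncard : ℕ) : ℝ) := by push_cast; ring
    _ ≤ D.ncard := by exact_mod_cast hcard
    _ ≤ _ := hbig.2

end Pool.Agent.Hhelper68.Gauss
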