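import Mathlib

/-!
# A criterion of Pyatetskii-Shapiro type for equal block frequencies
-/

set_option autoImplicit false

open Finset Filter

namespace Pool.Agent.Hhelper68.Gauss

section moment

variable {A : Type*} [Fintype A] [DecidableEq A]

omit [DecidableEq A] in
theorem sum_cons {L : ℕ} (F : (Fin (L + 1) → A) → ℝ) :
    ∑ v, F v = ∑ a : A, ∑ v : Fin L → A, F (Fin.cons a v) := by
  rw [← (Fin.consEquiv (fun _ : Fin (L + 1) => A)).sum_comp, Fintype.sum_prod_type]
  rfl

omit [DecidableEq A] in
theorem moment_aux (g : A → ℝ) (hg : ∑ a, g a = 0) (hg2 : ∑ a, g a ^ 2 ≤ 1) (L : ℕ) :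
    ∑ v : Fin L → A, (∑ j, g (v j)) = 0 ∧
      ∑ v : Fin L → A, (∑ j, g (v j)) ^ 2 ≤ (Fintype.card A : ℝ) ^ L * L := by
  rcases isEmpty_or_nonempty A with hA | hA
  · cases L with
    | zero => simp
    | succ L =>
      have : IsEmpty (Fin (L + 1) → A) := ⟨fun f => hA.elim (f 0)⟩
      simp
  have hQ : (1 : ℝ) ≤ Fintype.card A := by
    exact_mod_cast Fintype.card_pos
  induction L with
  | zero => simp
  | succ L ih =>
    obtain ⟨ih1, ih2⟩ := ih
    have hs : ∀ (a : A) (v : Fin L → A), ∑ j, g ((Fin.cons a v : Fin (L + 1) → A) j) =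
        g a + ∑ j, g (v j) := by
      intro a v
      rw [Fin.sum_univ_succ]
      simp
    constructor
    · rw [sum_cons]
      simp only [hs, sum_add_distrib, ih1, add_zero, sum_const, nsmul_eq_mul, ← mul_sum, hg,
        mul_zero]
    · rw [sum_cons]
      simp only [hs]
      have h1 : ∀ a : A, ∑ v : Fin L → A, (g a + ∑ j, g (v j)) ^ 2 =
          (Fintype.card A : ℝ) ^ L * g a ^ 2 + ∑ v : Fin L → A, (∑ j, g (v j)) ^ 2 := by
        intro a
        have : ∀ v : Fin L → A, (g a + ∑ j, g (v j)) ^ 2 =
            g a ^ 2 + 2 * g a * (∑ j, g (v j)) + (∑ j, g (v j)) ^ 2 := fun v => by ring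
        simp only [this, sum_add_distrib, ← mul_sum, ih1, mul_zero, add_zero]
        simp
      simp only [h1, sum_add_distrib, ← mul_sum, sum_const, card_univ, nsmul_eq_mul]
      have hpow : (0 : ℝ) ≤ (Fintype.card A : ℝ) ^ L := by positivity
      have e1 : (Fintype.card A : ℝ) ^ L * ∑ a, g a ^ 2 ≤ (Fintype.card A : ℝ) ^ (L + 1) := by
        calc (Fintype.card A : ℝ) ^ L * ∑ a, g a ^ 2 ≤ (Fintype.card A : ℝ) ^ L * 1 := by gcongr
          _ ≤ (Fintype.card A : ℝ) ^ L * Fintype.card A := by gcongr
          _ = _ := by ring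
      have e2 : (Fintype.card A : ℝ) * ∑ v : Fin L → A, (∑ j, g (v j)) ^ 2 ≤
          (Fintype.card A : ℝ) ^ (L + 1) * L := by
        calc (Fintype.card A : ℝ) * ∑ v : Fin L → A, (∑ j, g (v j)) ^ 2
            ≤ (Fintype.card A : ℝ) * ((Fintype.card A : ℝ) ^ L * L) := by gcongr
          _ = _ := by ring
      push_cast
      linarith

/-- second moment of the number of occurrences of a letter in a uniform random word -/
theorem second_moment [Nonempty A] (w : A) (L : ℕ) :
    ∑ v : Fin L → A, (((univ.filter (fun j => v j = w)).card : ℝ) - L / Fintype.card A) ^ 2 ≤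
      (Fintype.card A : ℝ) ^ L * L := by
  have hQ : (1 : ℝ) ≤ Fintype.card A := by
    exact_mod_cast Fintype.card_pos
  set g : A → ℝ := fun a => (if a = w then 1 else 0) - 1 / Fintype.card A with hgdef
  have hg : ∑ a, g a = 0 := by
    rw [hgdef]
    simp only [sum_sub_distrib, sum_ite_eq', mem_univ, if_true, sum_const, card_univ,
      nsmul_eq_mul]
    field_simp
    norm_num
  have hg2 : ∑ a, g a ^ 2 ≤ 1 := by
    have : ∀ a, g a ^ 2 = (if a = w then 1 else 0) * (1 - 2 / Fintype.card A) +
        (1 / Fintype.card A) ^ 2 := by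
      intro a
      rw [hgdef]
      by_cases h : a = w
      · simp only [h, if_true]; ring
      · simp only [h, if_false]; ring
    simp only [this, sum_add_distrib, ← sum_mul, sum_ite_eq', mem_univ, if_true, sum_const,
      card_univ, nsmul_eq_mul]
    have h3 : (Fintype.card A : ℝ) * (1 / Fintype.card A) ^ 2 = 1 / Fintype.card A := by
      field_simp
    rw [h3]
    have h4 : (0 : ℝ) ≤ 1 / Fintype.card A := by positivity
    have h5 : (2 : ℝ) / Fintype.card A = 2 * (1 / Fintype.card A) := by ring
    rw [h5]
    linarith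
  have h := (moment_aux g hg hg2 L).2
  refine le_trans (le_of_eq ?_) h
  apply sum_congr rfl
  intro v _
  congr 1
  rw [hgdef]
  simp only [sum_sub_distrib, sum_const, card_univ, Fintype.card_fin, nsmul_eq_mul]
  rw [card_filter]
  push_cast
  ring

end moment

section criterion

variable {A : Type*} [Fintype A] [DecidableEq A]

theorem shift_count (P : ℕ → Prop) [DecidablePred P] (n s : ℕ) :
    |(((range n).filter (fun t => P (t + s))).card : ℝ) - ((range n).filter P).card| ≤ s := by
  have h1 : ((range n).filter (fun t => P (t + s))).card ≤ ((range n).filter P).card + s := by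
    have e : ((range n).filter (fun t => P (t + s))).card =
        (((range n).filter (fun t => P (t + s))).image (fun t => t + s)).card := by
      rw [card_image_of_injective]
      intro a b h
      simpa using h
    rw [e]
    calc (((range n).filter (fun t => P (t + s))).image (fun t => t + s)).card
        ≤ ((range n).filter P ∪ Ico n (n + s)).card := by
          apply card_le_card
          intro t ht
          simp only [mem_image, mem_filter, mem_range] at ht
          obtain ⟨u, ⟨hu1, hu2⟩, rfl⟩ := ht
          simp only [mem_union, mem_filter, mem_range, mem_Ico]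
          by_cases h : u + s < n
          · left; exact ⟨h, hu2⟩
          · right; omega
      _ ≤ ((range n).filter P).card + (Ico n (n + s)).card := card_union_le _ _
      _ = _ := by rw [Nat.card_Ico]; omega
  have h2 : ((range n).filter P).card ≤ ((range n).filter (fun t => P (t + s))).card + s := by
    calc ((range n).filter P).card
        ≤ (((range n).filter (fun t => P (t + s))).image (fun t => t + s) ∪ range s).card := by
          apply card_le_card
          intro t ht
          simp only [mem_filter, mem_range] at ht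
          simp only [mem_union, mem_image, mem_filter, mem_range]
          by_cases h : t < s
          · right; exact h
          · left
            refine ⟨t - s, ⟨by omega, ?_⟩, by omega⟩
            rw [Nat.sub_add_cancel (by omega)]
            exact ht.2
      _ ≤ (((range n).filter (fun t => P (t + s))).image (fun t => t + s)).card + (range s).card :=
          card_union_le _ _
      _ ≤ ((range n).filter (fun t => P (t + s))).card + s := by
          rw [card_range]
          exact Nat.add_le_add_right card_image_le s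
  rw [abs_le]
  constructor
  · have : (((range n).filter P).card : ℝ) ≤ ((range n).filter (fun t => P (t + s))).card + s := by
      exact_mod_cast h2
    linarith
  · have : (((range n).filter (fun t => P (t + s))).card : ℝ) ≤ ((range n).filter P).card + s := by
      exact_mod_cast h1
    linarith

/-- Pyatetskii-Shapiro criterion for a sequence `E` of (overlapping) blocks. -/
theorem block_criterion [Nonempty A] (E : ℕ → A) (l : ℕ) (C : ℝ) (hC : 0 ≤ C)
    (h : ∀ (L : ℕ) (v : Fin L → A), ∀ᶠ n : ℕ in atTop,
      (((range n).filter (fun t => ∀ j : Fin L, E (t + l * j) = v j)).card : ℝ) ≤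
        C * n / (Fintype.card A : ℝ) ^ L) (w : A) :
    Tendsto (fun n : ℕ => (((range n).filter (fun t => E t = w)).card : ℝ) / n) atTop
      (nhds (1 / Fintype.card A)) := by
  rw [Metric.tendsto_atTop]
  intro ε hε
  set Q : ℝ := (Fintype.card A : ℝ) with hQdef
  have hQ : 1 ≤ Q := by
    rw [hQdef]
    exact_mod_cast Fintype.card_pos
  -- choose the block length
  obtain ⟨L, hL1, hL2⟩ : ∃ L : ℕ, 1 ≤ L ∧ C < ε / 2 * √L := by
    obtain ⟨m, hm⟩ := exists_nat_gt (C / (ε / 2))
    refine ⟨(m + 1) ^ 2, Nat.one_le_iff_ne_zero.mpr (by positivity), ?_⟩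
    push_cast
    rw [Real.sqrt_sq (by positivity)]
    rw [div_lt_iff₀ (by positivity)] at hm
    nlinarith
  have hLpos : (0 : ℝ) < L := by exact_mod_cast hL1
  have hev : ∀ᶠ n : ℕ in atTop, ∀ v : Fin L → A,
      (((range n).filter (fun t => ∀ j : Fin L, E (t + l * j) = v j)).card : ℝ) ≤ C * n / Q ^ L :=
    eventually_all.mpr (fun v => h L v)
  obtain ⟨N0, hN0⟩ := eventually_atTop.mp hev
  obtain ⟨N1, hN1⟩ := exists_nat_gt ((l * L : ℝ) / (ε / 2))
  refine ⟨max (max N0 N1) 1, fun n hn => ?_⟩
  have hn0 : N0 ≤ n := le_trans (le_trans (le_max_left _ _) (le_max_left _ _)) hn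
  have hn1 : N1 ≤ n := le_trans (le_trans (le_max_right _ _) (le_max_left _ _)) hn
  have hnpos : (0 : ℝ) < n := by
    exact_mod_cast lt_of_lt_of_le one_pos (le_trans (le_max_right _ _) hn)
  set cnt : ℝ := (((range n).filter (fun t => E t = w)).card : ℝ) with hcnt
  set f : (Fin L → A) → ℝ := fun v => ((univ.filter (fun j => v j = w)).card : ℝ) with hf
  -- blocks at time `t`
  set B : ℕ → (Fin L → A) := fun t j => E (t + l * j) with hB
  have hsum1 : ∑ t ∈ range n, f (B t) = ∑ j : Fin L,
      (((range n).filter (fun t => E (t + l * j) = w)).card : ℝ) := by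
    rw [hf]
    simp only [card_filter]
    push_cast
    rw [sum_comm]
  have hsum2 : |∑ t ∈ range n, f (B t) - L * cnt| ≤ L * (l * L) := by
    rw [hsum1]
    have : (L : ℝ) * cnt = ∑ j : Fin L, cnt := by simp
    rw [this, ← sum_sub_distrib]
    calc |∑ j : Fin L, ((((range n).filter (fun t => E (t + l * j) = w)).card : ℝ) - cnt)|
        ≤ ∑ j : Fin L, |(((range n).filter (fun t => E (t + l * j) = w)).card : ℝ) - cnt| :=
          abs_sum_le_sum_abs _ _
      _ ≤ ∑ j : Fin L, (l * L : ℝ) := by
          apply sum_le_sum
          intro j _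
          refine (shift_count (fun t => E t = w) n (l * j)).trans ?_
          push_cast
          have : ((j : ℕ) : ℝ) ≤ L := by exact_mod_cast j.2.le
          gcongr
      _ = L * (l * L) := by simp
  have hsum3 : ∑ t ∈ range n, (f (B t) - L / Q) =
      ∑ v : Fin L → A, (((range n).filter (fun t => B t = v)).card : ℝ) * (f v - L / Q) := by
    rw [← sum_fiberwise_of_maps_to (s := range n) (t := univ) (g := B) (fun _ _ => mem_univ _)]
    apply sum_congr rfl
    intro v _
    rw [← nsmul_eq_mul, ← sum_const]
    apply sum_congr rfl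
    intro t ht
    rw [(mem_filter.mp ht).2]
  have hblock : ∀ v : Fin L → A, (((range n).filter (fun t => B t = v)).card : ℝ) ≤
      C * n / Q ^ L := by
    intro v
    refine le_trans (le_of_eq ?_) (hN0 n hn0 v)
    congr 2
    ext t
    simp only [mem_filter, hB, funext_iff]
  have hQL : (0 : ℝ) < Q ^ L := by positivity
  have hsum4 : |∑ t ∈ range n, (f (B t) - L / Q)| ≤ C * n * √L := by
    rw [hsum3]
    calc |∑ v : Fin L → A, (((range n).filter (fun t => B t = v)).card : ℝ) * (f v - L / Q)|
        ≤ ∑ v : Fin L → A, |(((range n).filter (fun t => B t = v)).card : ℝ) * (f v - L / Q)| :=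
          abs_sum_le_sum_abs _ _
      _ ≤ ∑ v : Fin L → A, C * n / Q ^ L * |f v - L / Q| := by
          apply sum_le_sum
          intro v _
          rw [abs_mul, Nat.abs_cast]
          gcongr
          exact hblock v
      _ = C * n / Q ^ L * ∑ v : Fin L → A, |f v - L / Q| := by rw [mul_sum]
      _ ≤ C * n / Q ^ L * (Q ^ L * √L) := by
          gcongr
          apply le_of_sq_le_sq _ (by positivity)
          rw [mul_pow, Real.sq_sqrt hLpos.le]
          have h1 := sq_sum_le_card_mul_sum_sq (s := (univ : Finset (Fin L → A)))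
            (f := fun v => |f v - L / Q|)
          simp only [sq_abs] at h1
          refine h1.trans ?_
          have h2 := second_moment w L
          have h3 : ((univ : Finset (Fin L → A)).card : ℝ) = Q ^ L := by
            rw [card_univ, Fintype.card_fun, Fintype.card_fin]
            push_cast
            rw [hQdef]
          rw [h3]
          calc Q ^ L * ∑ v : Fin L → A, (f v - L / Q) ^ 2 ≤ Q ^ L * (Q ^ L * L) := by gcongr
            _ = _ := by ring
      _ = C * n * √L := by field_simp
  have hsum5 : ∑ t ∈ range n, (f (B t) - L / Q) = ∑ t ∈ range n, f (B t) - n * (L / Q) := by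
    rw [sum_sub_distrib]
    simp
  rw [hsum5] at hsum4
  rw [Real.dist_eq]
  have hsq : √(L : ℝ) * √L = L := Real.mul_self_sqrt hLpos.le
  have hsqpos : 0 < √(L : ℝ) := Real.sqrt_pos.mpr hLpos
  -- combine
  have hfin : L * |cnt - n / Q| ≤ C * n * √L + L * (l * L) := by
    have e : (L : ℝ) * (cnt - n / Q) = (∑ t ∈ range n, f (B t) - n * (L / Q)) -
        (∑ t ∈ range n, f (B t) - L * cnt) := by ring
    rw [← abs_of_pos hLpos, ← abs_mul, abs_of_pos hLpos, e]
    exact (abs_sub _ _).trans (add_le_add hsum4 hsum2)
  have e1 : cnt / n - 1 / Q = (cnt - n / Q) / n := by field_simp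
  rw [e1, abs_div, abs_of_pos hnpos, div_lt_iff₀ hnpos]
  have hn1' : (l * L : ℝ) < ε / 2 * n := by
    have : (l * L : ℝ) / (ε / 2) < n := lt_of_lt_of_le hN1 (by exact_mod_cast hn1)
    rw [div_lt_iff₀ (by positivity)] at this
    linarith
  have : L * |cnt - n / Q| < L * (ε * n) := by
    calc L * |cnt - n / Q| ≤ C * n * √L + L * (l * L) := hfin
      _ < (ε / 2 * √L) * n * √L + L * (ε / 2 * n) := by
          apply add_lt_add
          · gcongr
          · gcongr
      _ = L * (ε * n) := by
          have : (ε / 2 * √(L : ℝ)) * n * √L = ε / 2 * n * (√L * √L) := by ring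
          rw [this, hsq]
          ring
  exact lt_of_mul_lt_mul_left this hLpos.le

end criterion

end Pool.Agent.Hhelper68.Gauss
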