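import Mathlib
import Pool.Agent.Hhelper68.Gauss.Count

/-!
# Paths of integer parts, and the measure of the set of points with too many hits
-/

set_option autoImplicit false

open Complex MeasureTheory Filter

namespace Pool.Agent.Hhelper68.Gauss

variable {α : ℂ} {a0 a1 a2 : ℤ}

/-- successive integer parts `M t` and digits `e t` -/
structure IsPath (α : ℂ) (a0 a1 a2 : ℤ) (M : ℕ → ℂ) (e : ℕ → ℤ) : Prop where
  mem : ∀ t, M t ∈ Lam α a1 a2
  dig : ∀ t, 0 ≤ e t ∧ e t < |a0|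
  step : ∀ t, M (t + 1) = α * M t + e t

/-- the radius of the discs -/
noncomputable def rho (α : ℂ) (a0 : ℤ) : ℝ := |a0| / (‖α‖ - 1)

theorem rho_pos (h : Base α a0 a1 a2) : 0 < rho α a0 := by
  have h1 : 0 < ‖α‖ - 1 := by linarith [h.norm_gt]
  have h2 : (0 : ℝ) < |a0| := by
    have := h.a0_pos
    rw [abs_of_pos this]
    exact_mod_cast this
  unfold rho
  exact div_pos (by exact_mod_cast h2) h1

theorem IsPath.dist_le (h : Base α a0 a1 a2) {M : ℕ → ℂ} {e : ℕ → ℤ}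
    (hM : IsPath α a0 a1 a2 M e) (t j : ℕ) :
    ‖M (t + j) - α ^ j * M t‖ ≤ rho α a0 * (‖α‖ ^ j - 1) := by
  have h1 : 0 < ‖α‖ - 1 := by linarith [h.norm_gt]
  have hr : rho α a0 * (‖α‖ - 1) = |a0| := by
    unfold rho
    field_simp
  induction j with
  | zero => simp
  | succ j ih =>
    have e1 : M (t + (j + 1)) - α ^ (j + 1) * M t = α * (M (t + j) - α ^ j * M t) + e (t + j) := by
      rw [← add_assoc, hM.step, pow_succ]
      ring
    rw [e1]
    have e2 : ‖(e (t + j) : ℂ)‖ ≤ |a0| := by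
      rw [Complex.norm_intCast]
      have := hM.dig (t + j)
      rw [abs_of_nonneg (by exact_mod_cast this.1)]
      exact_mod_cast this.2.le
    calc ‖α * (M (t + j) - α ^ j * M t) + e (t + j)‖
        ≤ ‖α * (M (t + j) - α ^ j * M t)‖ + ‖(e (t + j) : ℂ)‖ := norm_add_le _ _
      _ ≤ ‖α‖ * (rho α a0 * (‖α‖ ^ j - 1)) + |a0| := by
          rw [norm_mul]
          push_cast
          push_cast at e2
          gcongr
      _ = rho α a0 * (‖α‖ ^ (j + 1) - 1) := by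
          rw [← hr, pow_succ]
          ring

theorem IsPath.dist_le' (h : Base α a0 a1 a2) {M : ℕ → ℂ} {e : ℕ → ℤ}
    (hM : IsPath α a0 a1 a2 M e) {t s : ℕ} (hts : t ≤ s) :
    ‖M s - α ^ (s - t) * M t‖ ≤ rho α a0 * ‖α‖ ^ (s - t) := by
  have := hM.dist_le h t (s - t)
  rw [Nat.add_sub_cancel' hts] at this
  refine this.trans ?_
  have := (rho_pos h).le
  have : (0 : ℝ) ≤ ‖α‖ ^ (s - t) := by positivity
  nlinarith

theorem IsPath.suf {M : ℕ → ℂ} {e : ℕ → ℤ} (hM : IsPath α a0 a1 a2 M e) {w : ℕ → ℤ} {L t : ℕ}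
    (hw : ∀ i < L, e (t + i) = w i) : Suf α a1 a2 (fun i => w (L - 1 - i)) L (M (t + L)) := by
  refine ⟨fun i => M (t + L - i), rfl, fun i _ => hM.mem _, fun i hi => ?_⟩
  have e1 : t + L - i = (t + L - (i + 1)) + 1 := by omega
  have e2 : t + L - (i + 1) = t + (L - 1 - i) := by omega
  change M (t + L - i) = α * M (t + L - (i + 1)) + (w (L - 1 - i) : ℤ)
  rw [e1, hM.step, e2, hw (L - 1 - i) (by omega)]

/-- constant -/
noncomputable def C1 (α : ℂ) (a0 a2 : ℤ) : ℝ := 4 * C0 α a2 * rho α a0 ^ 2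
/-- constant -/
noncomputable def C2 (α : ℂ) (a0 a2 : ℤ) : ℝ := C0 α a2 * (rho α a0 + 1) ^ 2

theorem card_free (h : Base α a0 a1 a2) (z : ℂ) (j : ℕ) :
    CardLe {N : ℂ | N ∈ Lam α a1 a2 ∧ ‖N - z‖ ≤ rho α a0 * ‖α‖ ^ j}
      (C2 α a0 a2 * ‖α‖ ^ (2 * j)) := by
  have hr := rho_pos h
  have hα : 1 ≤ ‖α‖ := h.norm_gt.le
  refine (card_disc h z (by positivity)).mono subset_rfl ?_
  unfold C2
  have h1 : 1 ≤ ‖α‖ ^ j := one_le_pow₀ hα
  have h2 : rho α a0 * ‖α‖ ^ j + 1 ≤ (rho α a0 + 1) * ‖α‖ ^ j := by nlinarith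
  have h3 : ‖α‖ ^ (2 * j) = (‖α‖ ^ j) ^ 2 := by rw [← pow_mul, mul_comm]
  have h4 := (C0_pos h).le
  rw [h3, mul_assoc, ← mul_pow]
  gcongr

theorem card_hit (h : Base α a0 a1 a2) (L : ℕ) : ∃ J : ℕ, 0 < J ∧ L ≤ J ∧ ∀ (v : ℕ → ℤ),
    (∀ i < L, 0 ≤ v i ∧ v i < |a0|) → ∀ (z : ℂ) (j : ℕ), J ≤ j →
    CardLe {N : ℂ | Suf α a1 a2 v L N ∧ ‖N - z‖ ≤ rho α a0 * ‖α‖ ^ j}
      (C1 α a0 a2 / (a0.natAbs : ℝ) ^ L * ‖α‖ ^ (2 * j)) := by
  obtain ⟨B, hB0, hB⟩ := card_suf h L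
  have hr := rho_pos h
  have hα : 1 ≤ ‖α‖ := h.norm_gt.le
  obtain ⟨J0, hJ0⟩ := pow_unbounded_of_one_lt ((B + 1) / rho α a0) h.norm_gt
  refine ⟨max J0 (L + 1), by omega, by omega, fun v hv z j hj => ?_⟩
  have h1 : (B + 1) ≤ rho α a0 * ‖α‖ ^ j := by
    have h2 : ‖α‖ ^ J0 ≤ ‖α‖ ^ j := pow_le_pow_right₀ hα (le_trans (le_max_left _ _) hj)
    rw [div_lt_iff₀ hr] at hJ0
    nlinarith
  refine (hB v hv z (rho α a0 * ‖α‖ ^ j) (by positivity)).mono subset_rfl ?_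
  have h3 : ‖α‖ ^ (2 * j) = (‖α‖ ^ j) ^ 2 := by rw [← pow_mul, mul_comm]
  have h4 := (C0_pos h).le
  have hq : (0 : ℝ) < (a0.natAbs : ℝ) ^ L := by
    have : 0 < a0.natAbs := by have := h.a0_pos; omega
    positivity
  rw [div_mul_eq_mul_div]
  apply div_le_div_of_nonneg_right _ hq.le
  unfold C1
  rw [h3]
  calc C0 α a2 * (rho α a0 * ‖α‖ ^ j + B + 1) ^ 2
      ≤ C0 α a2 * (2 * (rho α a0 * ‖α‖ ^ j)) ^ 2 := by
        gcongr
        linarith
    _ = _ := by ring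

/-- end points at time `n` of paths with prescribed hits -/
def XX (α : ℂ) (a0 a1 a2 : ℤ) (A0 : Set ℂ) (u : ℕ → ℤ) (L : ℕ) (τ : ℕ → ℕ) (I : Finset ℕ)
    (n : ℕ) : Set ℂ :=
  {z | ∃ M e, IsPath α a0 a1 a2 M e ∧ M 0 ∈ A0 ∧ (∀ i ∈ I, Suf α a1 a2 u L (M (τ i))) ∧ M n = z}

section hits

variable (h : Base α a0 a1 a2) {A0 : Set ℂ} {A : ℝ} (hA : CardLe A0 A) {u : ℕ → ℤ} {L J : ℕ}
  {K : ℝ} (hK : 0 < K)
  (hJ : ∀ (z : ℂ) (j : ℕ), J ≤ j →
    CardLe {N : ℂ | Suf α a1 a2 u L N ∧ ‖N - z‖ ≤ rho α a0 * ‖α‖ ^ j} (K * ‖α‖ ^ (2 * j)))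
  {τ : ℕ → ℕ} (hτ0 : ∀ i, J ≤ τ i) (hτ : ∀ i i', i < i' → τ i + J ≤ τ i')

include h hA hK hJ hτ0 hτ

theorem card_XX (I : Finset ℕ) : CardLe (XX α a0 a1 a2 A0 u L τ I (I.sup τ))
    (A * K ^ I.card * ‖α‖ ^ (2 * I.sup τ)) := by
  induction I using Finset.induction_on_max with
  | empty =>
    refine hA.mono ?_ (by simp)
    rintro z ⟨M, e, -, h0, -, hz⟩
    rw [← hz]
    simpa using h0
  | insert a I hmax ih =>
    have haI : a ∉ I := fun ha => lt_irrefl a (hmax a ha)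
    have hsup : I.sup τ + J ≤ τ a := by
      rcases I.eq_empty_or_nonempty with hI | hI
      · rw [hI]; simpa using hτ0 a
      · obtain ⟨i, hi, hi'⟩ := Finset.exists_mem_eq_sup I hI τ
        rw [hi']
        exact hτ i a (hmax i hi)
    have hsupI : (insert a I).sup τ = τ a := by
      rw [Finset.sup_insert]
      exact max_eq_left (by omega)
    rw [hsupI, Finset.card_insert_of_notMem haI]
    have := CardLe.biUnion (T := XX α a0 a1 a2 A0 u L τ (insert a I) (τ a)) ih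
      (fun z => {N : ℂ | Suf α a1 a2 u L N ∧ ‖N - α ^ (τ a - I.sup τ) * z‖ ≤
        rho α a0 * ‖α‖ ^ (τ a - I.sup τ)}) (by positivity)
      (fun z _ => hJ _ _ (by omega)) (by
        rintro y ⟨M, e, hM, h0, hI, hy⟩
        refine ⟨M (I.sup τ), ⟨M, e, hM, h0, fun i hi => hI i (Finset.mem_insert_of_mem hi), rfl⟩,
          ?_, ?_⟩
        · rw [← hy]; exact hI a (Finset.mem_insert_self a I)
        · rw [← hy]
          exact hM.dist_le' h (by omega))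
    refine this.mono subset_rfl (le_of_eq ?_)
    have e1 : 2 * τ a = 2 * I.sup τ + 2 * (τ a - I.sup τ) := by omega
    rw [e1, pow_add]
    ring

theorem card_XX' (I : Finset ℕ) {n : ℕ} (hn : ∀ i ∈ I, τ i ≤ n) :
    CardLe (XX α a0 a1 a2 A0 u L τ I n) (A * C2 α a0 a2 * ‖α‖ ^ (2 * n) * K ^ I.card) := by
  have hsup : I.sup τ ≤ n := Finset.sup_le hn
  have hC2 : 0 ≤ C2 α a0 a2 := by
    have := (C0_pos h).le
    unfold C2
    positivity
  have := CardLe.biUnion (T := XX α a0 a1 a2 A0 u L τ I n) (card_XX h hA hK hJ hτ0 hτ I)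
    (fun z => {N : ℂ | N ∈ Lam α a1 a2 ∧ ‖N - α ^ (n - I.sup τ) * z‖ ≤
      rho α a0 * ‖α‖ ^ (n - I.sup τ)}) (by positivity)
    (fun z _ => card_free h _ _) (by
      rintro y ⟨M, e, hM, h0, hI, hy⟩
      refine ⟨M (I.sup τ), ⟨M, e, hM, h0, hI, rfl⟩, ?_, ?_⟩
      · rw [← hy]; exact hM.mem n
      · rw [← hy]
        exact hM.dist_le' h hsup)
  refine this.mono subset_rfl (le_of_eq ?_)
  have e1 : 2 * n = 2 * I.sup τ + 2 * (n - I.sup τ) := by omega
  rw [e1, pow_add]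
  ring

open Classical in
/-- end points of paths with at least `s` hits -/
theorem card_bad (m s : ℕ) {n : ℕ} (hn : ∀ i < m, τ i ≤ n) :
    CardLe {z | ∃ M e, IsPath α a0 a1 a2 M e ∧ M 0 ∈ A0 ∧
      s ≤ ((Finset.range m).filter (fun i => Suf α a1 a2 u L (M (τ i)))).card ∧ M n = z}
      (A * C2 α a0 a2 * ‖α‖ ^ (2 * n) * (1 + K) ^ m / 2 ^ s) := by
  set Bad : Set ℂ := {z | ∃ M e, IsPath α a0 a1 a2 M e ∧ M 0 ∈ A0 ∧
      s ≤ ((Finset.range m).filter (fun i => Suf α a1 a2 u L (M (τ i)))).card ∧ M n = z} with hBad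
  have hfin : Bad.Finite := by
    refine (card_XX' h hA hK hJ hτ0 hτ ∅ (n := n) (by simp)).1.subset ?_
    rintro z ⟨M, e, hM, h0, -, hz⟩
    exact ⟨M, e, hM, h0, by simp, hz⟩
  refine ⟨hfin, ?_⟩
  rw [le_div_iff₀ (by positivity), Set.ncard_eq_toFinset_card _ hfin]
  set P := (Finset.range m).powerset with hP
  have hI : ∀ I ∈ P, ∀ i ∈ I, τ i ≤ n := fun I hI i hi =>
    hn i (Finset.mem_range.mp (Finset.mem_powerset.mp hI hi))
  -- many subsets of hits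
  have h1 : ∀ z ∈ hfin.toFinset, (2 : ℝ) ^ s ≤
      ((P.filter (fun I => z ∈ XX α a0 a1 a2 A0 u L τ I n)).card : ℝ) := by
    intro z hz
    rw [Set.Finite.mem_toFinset] at hz
    obtain ⟨M, e, hM, h0, hs, hz'⟩ := hz
    set H := (Finset.range m).filter (fun i => Suf α a1 a2 u L (M (τ i))) with hH
    have hsub : H.powerset ⊆ P.filter (fun I => z ∈ XX α a0 a1 a2 A0 u L τ I n) := by
      intro I hI
      rw [Finset.mem_powerset] at hI
      rw [Finset.mem_filter, hP, Finset.mem_powerset]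
      exact ⟨hI.trans (Finset.filter_subset _ _), M, e, hM, h0,
        fun i hi => (Finset.mem_filter.mp (hI hi)).2, hz'⟩
    have hc := Finset.card_le_card hsub
    rw [Finset.card_powerset] at hc
    have h2 : 2 ^ s ≤ 2 ^ H.card := Nat.pow_le_pow_right (by norm_num) hs
    exact_mod_cast h2.trans hc
  calc (hfin.toFinset.card : ℝ) * 2 ^ s = ∑ z ∈ hfin.toFinset, (2 : ℝ) ^ s := by
        rw [Finset.sum_const, nsmul_eq_mul]
    _ ≤ ∑ z ∈ hfin.toFinset, ((P.filter (fun I => z ∈ XX α a0 a1 a2 A0 u L τ I n)).card : ℝ) :=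
        Finset.sum_le_sum h1
    _ = ∑ I ∈ P, ((hfin.toFinset.filter (fun z => z ∈ XX α a0 a1 a2 A0 u L τ I n)).card : ℝ) := by
        simp only [Finset.card_filter]
        push_cast
        rw [Finset.sum_comm]
    _ ≤ ∑ I ∈ P, A * C2 α a0 a2 * ‖α‖ ^ (2 * n) * K ^ I.card := by
        apply Finset.sum_le_sum
        intro I hIP
        have hX := card_XX' h hA hK hJ hτ0 hτ I (hI I hIP)
        refine le_trans ?_ hX.2
        rw [Set.ncard_eq_toFinset_card _ hX.1]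
        norm_cast
        apply Finset.card_le_card
        intro z hz
        rw [Set.Finite.mem_toFinset]
        exact (Finset.mem_filter.mp hz).2
    _ = A * C2 α a0 a2 * ‖α‖ ^ (2 * n) * (1 + K) ^ m := by
        rw [← Finset.mul_sum]
        congr 1
        have := Finset.sum_pow_mul_eq_add_pow K (1 : ℝ) (Finset.range m)
        simp only [one_pow, mul_one, Finset.card_range] at this
        rw [this, add_comm]

open Classical in
/-- the measure of the set of points with at least `s` hits -/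
theorem volume_bad (m s : ℕ) {n : ℕ} (hn : ∀ i < m, τ i ≤ n) :
    volume {y : ℂ | ∃ M e, IsPath α a0 a1 a2 M e ∧ M 0 ∈ A0 ∧
      s ≤ ((Finset.range m).filter (fun i => Suf α a1 a2 u L (M (τ i)))).card ∧
      ‖α ^ n * y - M n‖ ≤ rho α a0} ≤
      ENNReal.ofReal (A * C2 α a0 a2 * Real.pi * rho α a0 ^ 2 * ((1 + K) ^ m / 2 ^ s)) := by
  have hbad := card_bad h hA hK hJ hτ0 hτ m s hn
  set Bad : Set ℂ := {z | ∃ M e, IsPath α a0 a1 a2 M e ∧ M 0 ∈ A0 ∧
      s ≤ ((Finset.range m).filter (fun i => Suf α a1 a2 u L (M (τ i)))).card ∧ M n = z} with hBad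
  have hr := rho_pos h
  have hαn : 0 < ‖α‖ ^ n := by
    have : 0 < ‖α‖ := by linarith [h.norm_gt]
    positivity
  have hαn0 : α ^ n ≠ 0 := pow_ne_zero n h.ne_zero
  have hsub : {y : ℂ | ∃ M e, IsPath α a0 a1 a2 M e ∧ M 0 ∈ A0 ∧
      s ≤ ((Finset.range m).filter (fun i => Suf α a1 a2 u L (M (τ i)))).card ∧
      ‖α ^ n * y - M n‖ ≤ rho α a0} ⊆
      ⋃ z ∈ hbad.1.toFinset, Metric.closedBall (z / α ^ n) (rho α a0 / ‖α‖ ^ n) := by
    rintro y ⟨M, e, hM, h0, hs, hy⟩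
    rw [Set.mem_iUnion₂]
    refine ⟨M n, ?_, ?_⟩
    · rw [Set.Finite.mem_toFinset]
      exact ⟨M, e, hM, h0, hs, rfl⟩
    · rw [mem_closedBall_iff_norm, le_div_iff₀ hαn, ← norm_pow, ← norm_mul]
      have : (y - M n / α ^ n) * α ^ n = α ^ n * y - M n := by field_simp
      rw [this]
      exact hy
  refine (measure_mono hsub).trans ((measure_biUnion_finset_le _ _).trans ?_)
  have hvol : ∀ z : ℂ, volume (Metric.closedBall (z / α ^ n) (rho α a0 / ‖α‖ ^ n)) =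
      ENNReal.ofReal (Real.pi * (rho α a0 / ‖α‖ ^ n) ^ 2) := by
    intro z
    rw [Complex.volume_closedBall, ENNReal.ofReal_mul Real.pi_pos.le,
      ENNReal.ofReal_pow (by positivity), mul_comm]
    congr 1
    rw [← NNReal.coe_real_pi, ENNReal.ofReal_coe_nnreal]
  simp only [hvol, Finset.sum_const, nsmul_eq_mul]
  rw [← ENNReal.ofReal_natCast, ← ENNReal.ofReal_mul (Nat.cast_nonneg _)]
  apply ENNReal.ofReal_le_ofReal
  have hc := hbad.2
  rw [Set.ncard_eq_toFinset_card _ hbad.1] at hc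
  calc (hbad.1.toFinset.card : ℝ) * (Real.pi * (rho α a0 / ‖α‖ ^ n) ^ 2)
      ≤ (A * C2 α a0 a2 * ‖α‖ ^ (2 * n) * (1 + K) ^ m / 2 ^ s) *
        (Real.pi * (rho α a0 / ‖α‖ ^ n) ^ 2) := by
        have := Real.pi_pos
        gcongr
    _ = _ := by
        have : ‖α‖ ^ (2 * n) = (‖α‖ ^ n) ^ 2 := by rw [← pow_mul, mul_comm]
        rw [this]
        field_simp

end hits

end Pool.Agent.Hhelper68.Gauss
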