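import Mathlib
import Pool.Agent.Hhelper68.Gauss.PS
import Pool.Agent.Hhelper68.Gauss.Path

/-!
# Almost every point has only normal expansions
-/

set_option autoImplicit false

open Complex MeasureTheory Filter

namespace Pool.Agent.Hhelper68.Gauss

variable {α : ℂ} {a0 a1 a2 : ℤ}

theorem numeric {K : ℝ} (hK : 0 < K) (m : ℕ) :
    (1 + K) ^ m / 2 ^ ⌈4 * K * m⌉₊ ≤ Real.exp (-K) ^ m := by
  have h1 : (1 + K) ^ m ≤ Real.exp K ^ m := by
    have := Real.add_one_le_exp K
    gcongr
    linarith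
  have h2 : Real.exp (2 * K) ^ m ≤ 2 ^ ⌈4 * K * m⌉₊ := by
    have e1 : Real.exp (2 * K) ^ m = Real.exp (2 * K * m) := by
      rw [← Real.exp_nat_mul]; ring_nf
    have e2 : (2 : ℝ) ^ ⌈4 * K * m⌉₊ = Real.exp (Real.log 2 * ⌈4 * K * m⌉₊) := by
      rw [mul_comm (Real.log 2), Real.exp_nat_mul, Real.exp_log (by norm_num)]
    rw [e1, e2]
    apply Real.exp_le_exp.mpr
    have h3 := Nat.le_ceil (4 * K * m)
    have h4 := Real.log_two_gt_d9
    have h5 : (0 : ℝ) ≤ 4 * K * m := by positivity
    have h6 : (1 / 2 : ℝ) ≤ Real.log 2 := by linarith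
    calc 2 * K * m = 1 / 2 * (4 * K * m) := by ring
      _ ≤ Real.log 2 * ⌈4 * K * m⌉₊ := by
        apply mul_le_mul h6 h3 h5
        linarith
  rw [div_le_iff₀ (by positivity)]
  calc (1 + K) ^ m ≤ Real.exp K ^ m := h1
    _ = Real.exp (-K) ^ m * Real.exp (2 * K) ^ m := by
        rw [← mul_pow, ← Real.exp_add]
        ring_nf
    _ ≤ _ := by gcongr

/-- the points of the lattice near a disc -/
theorem card_start (h : Base α a0 a1 a2) {R : ℝ} (hR : 0 ≤ R) :
    ∃ A, CardLe {z : ℂ | z ∈ Lam α a1 a2 ∧ ‖z‖ ≤ R} A := by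
  have := card_disc h 0 hR
  simp only [sub_zero] at this
  exact ⟨_, this⟩

open Classical in
theorem ae_few_hits (h : Base α a0 a1 a2) {u : ℕ → ℤ} {L J : ℕ} {K : ℝ} (hK : 0 < K)
    (hJ : ∀ (z : ℂ) (j : ℕ), J ≤ j →
      CardLe {N : ℂ | Suf α a1 a2 u L N ∧ ‖N - z‖ ≤ rho α a0 * ‖α‖ ^ j} (K * ‖α‖ ^ (2 * j)))
    {τ : ℕ → ℕ} (hτ0 : ∀ i, J ≤ τ i) (hτ : ∀ i i', i < i' → τ i + J ≤ τ i') :
    ∀ᵐ y : ℂ, ∀ M e, IsPath α a0 a1 a2 M e → (∀ t, ‖α ^ t * y - M t‖ ≤ rho α a0) →
      ∀ᶠ m : ℕ in atTop,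
        (((Finset.range m).filter (fun i => Suf α a1 a2 u L (M (τ i)))).card : ℝ) <
          4 * K * m + 1 := by
  have hall : ∀ R : ℕ, ∀ᵐ y : ℂ, ∀ᶠ m : ℕ in atTop, y ∉ {y : ℂ | ∃ M e,
      IsPath α a0 a1 a2 M e ∧ M 0 ∈ {z : ℂ | z ∈ Lam α a1 a2 ∧ ‖z‖ ≤ R} ∧
      ⌈4 * K * m⌉₊ ≤ ((Finset.range m).filter (fun i => Suf α a1 a2 u L (M (τ i)))).card ∧
      ‖α ^ (τ m) * y - M (τ m)‖ ≤ rho α a0} := by
    intro R
    obtain ⟨A, hA⟩ := card_start h (Nat.cast_nonneg R)
    apply ae_eventually_notMem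
    set c := A * C2 α a0 a2 * Real.pi * rho α a0 ^ 2 with hc
    have hc0 : 0 ≤ c := by
      have h1 := (C0_pos h).le
      have h2 : 0 ≤ C2 α a0 a2 := by unfold C2; positivity
      have h3 := hA.nonneg
      have := Real.pi_pos
      positivity
    have hle : ∀ m : ℕ, volume {y : ℂ | ∃ M e,
        IsPath α a0 a1 a2 M e ∧ M 0 ∈ {z : ℂ | z ∈ Lam α a1 a2 ∧ ‖z‖ ≤ R} ∧
        ⌈4 * K * m⌉₊ ≤ ((Finset.range m).filter (fun i => Suf α a1 a2 u L (M (τ i)))).card ∧
        ‖α ^ (τ m) * y - M (τ m)‖ ≤ rho α a0} ≤ ENNReal.ofReal (c * Real.exp (-K) ^ m) := by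
      intro m
      refine (volume_bad h hA hK hJ hτ0 hτ m ⌈4 * K * m⌉₊ (n := τ m) ?_).trans ?_
      · intro i hi
        have := hτ i m hi
        omega
      · apply ENNReal.ofReal_le_ofReal
        have := numeric hK m
        rw [← hc]
        gcongr
    refine ne_top_of_le_ne_top ?_ (ENNReal.tsum_le_tsum hle)
    have hsum : Summable (fun m : ℕ => c * Real.exp (-K) ^ m) := by
      apply Summable.mul_left
      apply summable_geometric_of_lt_one (Real.exp_pos _).le
      rw [Real.exp_lt_one_iff]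
      linarith
    rw [← ENNReal.ofReal_tsum_of_nonneg (fun m => by positivity) hsum]
    exact ENNReal.ofReal_ne_top
  filter_upwards [ae_all_iff.mpr hall] with y hy M e hM hd
  obtain ⟨R, hR⟩ := exists_nat_ge (‖y‖ + rho α a0)
  filter_upwards [hy R] with m hm
  by_contra hcon
  push Not at hcon
  apply hm
  refine ⟨M, e, hM, ⟨hM.mem 0, ?_⟩, ?_, hd _⟩
  · have h1 := hd 0
    rw [pow_zero, one_mul] at h1
    have h2 : ‖M 0‖ ≤ ‖y‖ + ‖y - M 0‖ := by
      have : M 0 = y - (y - M 0) := by ring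
      calc ‖M 0‖ = ‖y - (y - M 0)‖ := by rw [← this]
        _ ≤ _ := norm_sub_le _ _
    linarith
  · have h3 := Nat.ceil_lt_add_one (show (0:ℝ) ≤ 4 * K * m by positivity)
    have h4 : (⌈4 * K * m⌉₊ : ℝ) <
        ((Finset.range m).filter (fun i => Suf α a1 a2 u L (M (τ i)))).card := by linarith
    exact_mod_cast h4.le

open Classical in
/-- Upper bound for the number of occurrences of a word. -/
theorem ae_count (h : Base α a0 a1 a2) (L : ℕ) (w : ℕ → ℤ)
    (hw : ∀ i < L, 0 ≤ w i ∧ w i < |a0|) :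
    ∀ᵐ y : ℂ, ∀ M e, IsPath α a0 a1 a2 M e → (∀ t, ‖α ^ t * y - M t‖ ≤ rho α a0) →
      ∀ᶠ n : ℕ in atTop, (((Finset.range n).filter (fun t => ∀ i < L, e (t + i) = w i)).card : ℝ) ≤
        5 * C1 α a0 a2 * n / (a0.natAbs : ℝ) ^ L := by
  obtain ⟨J, hJ0, hLJ, hJ⟩ := card_hit h L
  set u : ℕ → ℤ := fun i => w (L - 1 - i) with hu
  have hq : (0 : ℝ) < (a0.natAbs : ℝ) ^ L := by
    have : 0 < a0.natAbs := by have := h.a0_pos; omega
    positivity
  have hudig : ∀ i < L, 0 ≤ u i ∧ u i < |a0| := fun i hi => hw (L - 1 - i) (by omega)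
  have hC1 : 0 < C1 α a0 a2 := by
    have h1 := C0_pos h
    have h2 := rho_pos h
    unfold C1
    positivity
  set K : ℝ := C1 α a0 a2 / (a0.natAbs : ℝ) ^ L with hKdef
  have hK : 0 < K := by positivity
  have hall : ∀ r : ℕ, ∀ᵐ y : ℂ, ∀ M e, IsPath α a0 a1 a2 M e →
      (∀ t, ‖α ^ t * y - M t‖ ≤ rho α a0) → ∀ᶠ m : ℕ in atTop,
        (((Finset.range m).filter (fun i => Suf α a1 a2 u L (M (r + (i + 1) * J)))).card : ℝ) <
          4 * K * m + 1 := by
    intro r
    refine ae_few_hits h hK (hJ u hudig) (τ := fun i => r + (i + 1) * J) ?_ ?_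
    · intro i
      nlinarith
    · intro i i' hii
      have : i + 1 ≤ i' := hii
      nlinarith
  filter_upwards [ae_all_iff.mpr hall] with y hy M e hM hd
  have hev : ∀ᶠ m : ℕ in atTop, ∀ r : Fin J,
      (((Finset.range m).filter (fun i => Suf α a1 a2 u L (M (r + (i + 1) * J)))).card : ℝ) <
          4 * K * m + 1 := eventually_all.mpr (fun r => hy r M e hM hd)
  -- transfer from `m` to `n`
  have htend : Tendsto (fun n : ℕ => (n + L) / J) atTop atTop :=
    (Nat.tendsto_div_const_atTop hJ0.ne').comp (tendsto_add_atTop_nat L)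
  have hlarge : ∀ᶠ n : ℕ in atTop, (2 * J + 4 * K * L : ℝ) ≤ K * n := by
    have : Tendsto (fun n : ℕ => K * (n : ℝ)) atTop atTop :=
      Tendsto.const_mul_atTop hK tendsto_natCast_atTop_atTop
    exact this.eventually_ge_atTop _
  filter_upwards [htend.eventually hev, hlarge] with n hn1 hn2
  set m := (n + L) / J with hm
  -- covering of the hit times
  have hcov : ((Finset.range n).filter (fun t => ∀ i < L, e (t + i) = w i)).card ≤
      J + ∑ r : Fin J, ((Finset.range m).filter
        (fun i => Suf α a1 a2 u L (M (r + (i + 1) * J)))).card := by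
    have hinj : ((Finset.range n).filter (fun t => ∀ i < L, e (t + i) = w i)).card =
        (((Finset.range n).filter (fun t => ∀ i < L, e (t + i) = w i)).image
          (fun t => t + L)).card := by
      rw [Finset.card_image_of_injective]
      intro a b hab
      simpa using hab
    rw [hinj]
    calc _ ≤ (Finset.range J ∪ Finset.univ.biUnion (fun r : Fin J => ((Finset.range m).filter
            (fun i => Suf α a1 a2 u L (M (r + (i + 1) * J)))).image
              (fun i => (r : ℕ) + (i + 1) * J))).card := by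
          apply Finset.card_le_card
          intro s hs
          simp only [Finset.mem_image, Finset.mem_filter, Finset.mem_range] at hs
          obtain ⟨t, ⟨htn, ht⟩, rfl⟩ := hs
          have hsuf := hM.suf ht
          rw [Finset.mem_union]
          by_cases hlt : t + L < J
          · left; exact Finset.mem_range.mpr hlt
          · right
            push Not at hlt
            rw [Finset.mem_biUnion]
            refine ⟨⟨(t + L) % J, Nat.mod_lt _ hJ0⟩, Finset.mem_univ _, ?_⟩
            rw [Finset.mem_image]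
            have hdiv : 1 ≤ (t + L) / J := Nat.div_pos hlt hJ0
            have hdm : (t + L) % J + ((t + L) / J - 1 + 1) * J = t + L := by
              rw [Nat.sub_add_cancel hdiv]
              exact Nat.mod_add_div' _ _
            refine ⟨(t + L) / J - 1, ?_, hdm⟩
            rw [Finset.mem_filter, Finset.mem_range]
            refine ⟨?_, ?_⟩
            · have : (t + L) / J ≤ (n + L) / J := Nat.div_le_div_right (by omega)
              omega
            · simp only
              rw [hdm]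
              exact hsuf
      _ ≤ (Finset.range J).card + (Finset.univ.biUnion (fun r : Fin J => ((Finset.range m).filter
            (fun i => Suf α a1 a2 u L (M (r + (i + 1) * J)))).image
              (fun i => (r : ℕ) + (i + 1) * J))).card := Finset.card_union_le _ _
      _ ≤ J + ∑ r : Fin J, ((Finset.range m).filter
            (fun i => Suf α a1 a2 u L (M (r + (i + 1) * J)))).card := by
          rw [Finset.card_range]
          apply Nat.add_le_add_left
          refine Finset.card_biUnion_le.trans ?_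
          exact Finset.sum_le_sum fun r _ => Finset.card_image_le
  have hcov' : (((Finset.range n).filter (fun t => ∀ i < L, e (t + i) = w i)).card : ℝ) ≤
      J + J * (4 * K * m + 1) := by
    calc (((Finset.range n).filter (fun t => ∀ i < L, e (t + i) = w i)).card : ℝ)
        ≤ J + ∑ r : Fin J, (((Finset.range m).filter
          (fun i => Suf α a1 a2 u L (M (r + (i + 1) * J)))).card : ℝ) := by exact_mod_cast hcov
      _ ≤ J + ∑ r : Fin J, (4 * K * m + 1) := by
          gcongr with r _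
          exact (hn1 r).le
      _ = _ := by
          simp only [Finset.sum_const, Finset.card_univ, Fintype.card_fin, nsmul_eq_mul]
  have hmJ : (J : ℝ) * m ≤ n + L := by
    have : J * m ≤ n + L := by rw [hm]; exact Nat.mul_div_le _ _
    exact_mod_cast this
  calc (((Finset.range n).filter (fun t => ∀ i < L, e (t + i) = w i)).card : ℝ)
      ≤ J + J * (4 * K * m + 1) := hcov'
    _ = 2 * J + 4 * K * (J * m) := by ring
    _ ≤ 2 * J + 4 * K * (n + L) := by gcongr
    _ ≤ 5 * K * n := by linarith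
    _ = _ := by rw [hKdef]; ring

/-- All digit words of a path have the expected frequency, for almost every point. -/
theorem ae_freq (h : Base α a0 a1 a2) :
    ∀ᵐ y : ℂ, ∀ M e, IsPath α a0 a1 a2 M e → (∀ t, ‖α ^ t * y - M t‖ ≤ rho α a0) →
      ∀ (l : ℕ), 0 < l → ∀ w : Fin l → ℤ, (∀ i, 0 ≤ w i ∧ w i < |a0|) →
        Tendsto (fun n : ℕ => (((Finset.range n).filter
          (fun t => ∀ i : Fin l, e (t + i) = w i)).card : ℝ) / n) atTop
          (nhds (1 / (a0.natAbs : ℝ) ^ l)) := by
  classical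
  set q := a0.natAbs with hq
  have hqa : (q : ℤ) = |a0| := by rw [hq, Int.abs_eq_natAbs]
  have hq0 : 0 < q := by
    have := h.a0_pos
    omega
  have hdig : ∀ {L : ℕ} (v : Fin L → Fin q), ∀ i < L, 0 ≤ extd v i ∧ extd v i < |a0| := by
    intro L v i hi
    unfold extd
    rw [dif_pos hi, ← hqa]
    constructor
    · positivity
    · exact_mod_cast (v ⟨i, hi⟩).2
  have hall : ∀ᵐ y : ℂ, ∀ (L : ℕ) (v : Fin L → Fin q), ∀ M e, IsPath α a0 a1 a2 M e →
      (∀ t, ‖α ^ t * y - M t‖ ≤ rho α a0) →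
      ∀ᶠ n : ℕ in atTop, (((Finset.range n).filter
        (fun t => ∀ i < L, e (t + i) = extd v i)).card : ℝ) ≤ 5 * C1 α a0 a2 * n / (q : ℝ) ^ L := by
    rw [ae_all_iff]
    intro L
    rw [ae_all_iff]
    intro v
    exact ae_count h L (extd v) (hdig v)
  filter_upwards [hall] with y hy M e hM hd l hl w hw
  have hC1 : 0 ≤ C1 α a0 a2 := by
    have h1 := (C0_pos h).le
    have h2 := (rho_pos h).le
    unfold C1
    positivity
  have : Nonempty (Fin q) := ⟨⟨0, hq0⟩⟩
  -- digits in `Fin q`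
  have heq : ∀ t, (e t).toNat < q := by
    intro t
    have h1 := hM.dig t
    rw [← hqa] at h1
    omega
  set E : ℕ → (Fin l → Fin q) := fun t i => ⟨(e (t + i)).toNat, heq _⟩ with hE
  set w' : Fin l → Fin q := fun i => ⟨(w i).toNat, by
    have h1 := hw i
    rw [← hqa] at h1
    omega⟩ with hw'
  have hcrit := block_criterion E l (5 * C1 α a0 a2) (by positivity) (by
    intro L v
    -- the word of length `l * L`
    set v' : Fin (l * L) → Fin q := fun i => v ⟨i / l, Nat.div_lt_of_lt_mul i.2⟩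
      ⟨i % l, Nat.mod_lt _ hl⟩ with hv'
    filter_upwards [hy (l * L) v' M e hM hd] with n hn
    rw [Fintype.card_fun, Fintype.card_fin, Fintype.card_fin]
    have e1 : (((q ^ l : ℕ) : ℝ)) ^ L = (q : ℝ) ^ (l * L) := by
      push_cast
      rw [← pow_mul]
    rw [e1]
    refine le_trans ?_ hn
    norm_cast
    apply Finset.card_le_card
    intro t ht
    rw [Finset.mem_filter] at ht ⊢
    refine ⟨ht.1, fun i hi => ?_⟩
    have h2 := congrFun (ht.2 ⟨i / l, Nat.div_lt_of_lt_mul hi⟩) ⟨i % l, Nat.mod_lt _ hl⟩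
    rw [hE] at h2
    simp only at h2
    have h3 : t + l * (i / l) + i % l = t + i := by
      rw [add_assoc, Nat.div_add_mod]
    unfold extd
    rw [dif_pos hi, hv']
    simp only
    rw [← h2]
    simp only
    rw [h3]
    exact (Int.toNat_of_nonneg (hM.dig _).1).symm) w'
  rw [Fintype.card_fun, Fintype.card_fin, Fintype.card_fin] at hcrit
  push_cast at hcrit
  refine hcrit.congr (fun n => ?_)
  congr 3
  ext t
  simp only [Finset.mem_filter, Finset.mem_range, and_congr_right_iff]
  intro _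
  rw [hE, hw', funext_iff]
  apply forall_congr'
  intro i
  simp only [Fin.mk.injEq]
  constructor
  · intro h1
    have h2 := (hM.dig (t + i)).1
    have h3 := (hw i).1
    omega
  · intro h1
    rw [h1]

end Pool.Agent.Hhelper68.Gauss
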