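import Mathlib
import Pool.Agent.Hhelper68.Gauss.Main

/-!
# Expansions and paths; existence of (generalised) expansions
-/

set_option autoImplicit false

open Complex MeasureTheory Filter

namespace Pool.Agent.Hhelper68.Gauss

variable {α : ℂ} {a0 a1 a2 : ℤ}

/-- A path whose normalised points converge to `y` stays close to `α ^ t * y`. -/
theorem IsPath.near (h : Base α a0 a1 a2) {M : ℕ → ℂ} {e : ℕ → ℤ}
    (hM : IsPath α a0 a1 a2 M e) {y : ℂ} (hy : Tendsto (fun t => M t / α ^ t) atTop (nhds y))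
    (t : ℕ) : ‖α ^ t * y - M t‖ ≤ rho α a0 := by
  have hα0 := h.ne_zero
  have hαt : 0 < ‖α‖ ^ t := by
    have : 0 < ‖α‖ := norm_pos_iff.mpr hα0
    positivity
  have h1 : Tendsto (fun s => ‖α ^ t * (M s / α ^ s) - M t‖) atTop
      (nhds ‖α ^ t * y - M t‖) := ((hy.const_mul _).sub_const _).norm
  refine le_of_tendsto h1 ?_
  filter_upwards [eventually_ge_atTop t] with s hs
  have h2 := hM.dist_le' h hs
  have hαs : 0 < ‖α‖ ^ (s - t) := by
    have : 0 < ‖α‖ := norm_pos_iff.mpr hα0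
    positivity
  have e1 : α ^ t * (M s / α ^ s) - M t = (M s - α ^ (s - t) * M t) / α ^ (s - t) := by
    have : α ^ s = α ^ t * α ^ (s - t) := by rw [← pow_add, Nat.add_sub_cancel' hs]
    rw [this]
    field_simp
  rw [e1, norm_div, norm_pow, div_le_iff₀ hαs]
  exact h2

/-- null sets are invariant under multiplication -/
theorem ae_mul {P : ℂ → Prop} (hP : ∀ᵐ y : ℂ, P y) {c : ℂ} (hc : c ≠ 0) : ∀ᵐ x : ℂ, P (c * x) := by
  set f : ℂ ≃ₗ[ℝ] ℂ := (LinearEquiv.smulOfNeZero ℂ ℂ c hc).restrictScalars ℝ with hf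
  have h1 := Measure.addHaar_preimage_linearMap volume (f := (f : ℂ →ₗ[ℝ] ℂ))
    (LinearEquiv.isUnit_det' f).ne_zero {y | ¬ P y}
  rw [ae_iff] at hP ⊢
  rw [hP, mul_zero] at h1
  exact h1

/-- covering radius -/
theorem exists_cover (h : Base α a0 a1 a2) : ∃ R : ℝ, 0 ≤ R ∧ ∀ z : ℂ, ∃ N ∈ Lam α a1 a2,
    ‖z - N‖ ≤ R := by
  have ha2 : (0 : ℝ) < a2 := by exact_mod_cast h.a2_pos
  have hcd : (a2 : ℝ) * α.im ≠ 0 := mul_ne_zero ha2.ne' h.im_ne
  refine ⟨|(a2 : ℝ) * α.im| + a2, by positivity, fun z => ?_⟩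
  set v : ℤ := round (z.im / (a2 * α.im)) with hv
  set u : ℤ := round ((z.re - v * (a2 * α.re + a1)) / a2) with hu
  refine ⟨u * (a2 : ℂ) + v * (a2 * α + a1), ⟨u, v, rfl⟩, ?_⟩
  refine (Complex.norm_le_abs_re_add_abs_im _).trans ?_
  have h1 : |(z - (u * (a2 : ℂ) + v * (a2 * α + a1))).im| ≤ |(a2 : ℝ) * α.im| := by
    have e1 := abs_sub_round (z.im / (a2 * α.im))
    rw [← hv] at e1
    have e2 : (z - (u * (a2 : ℂ) + v * (a2 * α + a1))).im =
        (z.im / (a2 * α.im) - v) * (a2 * α.im) := by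
      have him := h.im_ne
      simp
      field_simp
    rw [e2, abs_mul]
    have : (0 : ℝ) ≤ |(a2 : ℝ) * α.im| := abs_nonneg _
    nlinarith
  have h2 : |(z - (u * (a2 : ℂ) + v * (a2 * α + a1))).re| ≤ a2 := by
    have e1 := abs_sub_round ((z.re - v * (a2 * α.re + a1)) / a2)
    rw [← hu] at e1
    have e2 : (z - (u * (a2 : ℂ) + v * (a2 * α + a1))).re =
        ((z.re - v * (a2 * α.re + a1)) / a2 - u) * a2 := by
      simp
      field_simp
      ring
    rw [e2, abs_mul, abs_of_pos ha2]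
    nlinarith
  linarith

/-- Every point is the limit of a path. -/
theorem exists_path (h : Base α a0 a1 a2) (x : ℂ) :
    ∃ M e, IsPath α a0 a1 a2 M e ∧ Tendsto (fun t => M t / α ^ t) atTop (nhds x) := by
  classical
  have hα0 := h.ne_zero
  have hαpos : 0 < ‖α‖ := norm_pos_iff.mpr hα0
  obtain ⟨R0, hR0, hcov⟩ := exists_cover h
  -- removal of the last digit
  have hT : ∀ N : ℂ, ∃ m : ℂ, m ∈ Lam α a1 a2 ∧ (N ∈ Lam α a1 a2 →
      ∃ d : ℤ, 0 ≤ d ∧ d < |a0| ∧ N = α * m + d) := by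
    intro N
    by_cases hN : N ∈ Lam α a1 a2
    · obtain ⟨d, m, h1, h2, h3, h4⟩ := exists_digit h hN
      exact ⟨m, h3, fun _ => ⟨d, h1, h2, h4⟩⟩
    · exact ⟨0, (Lam α a1 a2).zero_mem, fun h => absurd h hN⟩
  choose T hTmem hTd using hT
  choose P hPmem hP using fun n : ℕ => hcov (α ^ n * x)
  -- iterates
  have hit : ∀ (N : ℂ) (j : ℕ), N ∈ Lam α a1 a2 → T^[j] N ∈ Lam α a1 a2 := by
    intro N j hN
    cases j with
    | zero => exact hN
    | succ j => rw [Function.iterate_succ_apply']; exact hTmem _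
  have hdist : ∀ (j : ℕ) (N : ℂ), N ∈ Lam α a1 a2 →
      ‖N - α ^ j * T^[j] N‖ ≤ rho α a0 * (‖α‖ ^ j - 1) := by
    have hr : rho α a0 * (‖α‖ - 1) = |a0| := by
      have : 0 < ‖α‖ - 1 := by linarith [h.norm_gt]
      unfold rho
      field_simp
    intro j
    induction j with
    | zero => intro N _; simp
    | succ j ih =>
      intro N hN
      obtain ⟨d, hd0, hd1, hd⟩ := hTd N hN
      have h1 := ih (T N) (hTmem N)
      rw [Function.iterate_succ_apply]
      have e1 : N - α ^ (j + 1) * T^[j] (T N) = α * (T N - α ^ j * T^[j] (T N)) + d := by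
        rw [pow_succ]
        linear_combination hd
      rw [e1]
      have e2 : ‖(d : ℂ)‖ ≤ |a0| := by
        rw [Complex.norm_intCast, abs_of_nonneg (by exact_mod_cast hd0)]
        exact_mod_cast hd1.le
      calc ‖α * (T N - α ^ j * T^[j] (T N)) + d‖
          ≤ ‖α * (T N - α ^ j * T^[j] (T N))‖ + ‖(d : ℂ)‖ := norm_add_le _ _
        _ ≤ ‖α‖ * (rho α a0 * (‖α‖ ^ j - 1)) + |a0| := by
            rw [norm_mul]
            push_cast at e2 ⊢
            gcongr
        _ = rho α a0 * (‖α‖ ^ (j + 1) - 1) := by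
            rw [← hr, pow_succ]; ring
  set C : ℝ := R0 + rho α a0 with hC
  set Ω : ℕ → Set ℂ := fun t => {N : ℂ | N ∈ Lam α a1 a2 ∧ ‖N - α ^ t * x‖ ≤ C} with hΩ
  have hrpos := rho_pos h
  have hΩfin : ∀ t, (Ω t).Finite := fun t => (card_disc h (α ^ t * x) (by positivity)).1
  set K : ℕ → Set (ℕ → ℂ) := fun n => Set.univ.pi Ω ∩
    ⋂ t ∈ Finset.range n, ⋃ d ∈ Finset.Ico (0 : ℤ) |a0|, {M | M (t + 1) = α * M t + d} with hK
  have hclosed : ∀ n, IsClosed (⋂ t ∈ Finset.range n, ⋃ d ∈ Finset.Ico (0 : ℤ) |a0|,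
      {M : ℕ → ℂ | M (t + 1) = α * M t + d}) := by
    intro n
    apply isClosed_biInter
    intro t _
    apply isClosed_biUnion_finset
    intro d _
    exact isClosed_eq (continuous_apply _) (by fun_prop)
  have hcompact : ∀ n, IsCompact (K n) := fun n =>
    (isCompact_univ_pi fun t => (hΩfin t).isCompact).inter_right (hclosed n)
  have hne : ∀ n, (K n).Nonempty := by
    intro n
    have hmem : ∀ t, t ≤ n → T^[n - t] (P n) ∈ Ω t := by
      intro t ht
      refine ⟨hit _ _ (hPmem n), ?_⟩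
      have h1 := hdist (n - t) (P n) (hPmem n)
      have h2 := hP n
      have hαj : 0 < ‖α‖ ^ (n - t) := by positivity
      have h1' : 1 ≤ ‖α‖ ^ (n - t) := one_le_pow₀ h.norm_gt.le
      have e1 : α ^ (n - t) * (T^[n - t] (P n) - α ^ t * x) =
          -((α ^ n * x - P n) + (P n - α ^ (n - t) * T^[n - t] (P n))) := by
        have : α ^ n = α ^ (n - t) * α ^ t := by rw [← pow_add, Nat.sub_add_cancel ht]
        rw [this]; ring
      have e2 : ‖α‖ ^ (n - t) * ‖T^[n - t] (P n) - α ^ t * x‖ ≤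
          R0 + rho α a0 * (‖α‖ ^ (n - t) - 1) := by
        have e0 : ‖α‖ ^ (n - t) * ‖T^[n - t] (P n) - α ^ t * x‖ =
            ‖α ^ (n - t) * (T^[n - t] (P n) - α ^ t * x)‖ := by rw [norm_mul, norm_pow]
        rw [e0, e1, norm_neg]
        exact (norm_add_le _ _).trans (add_le_add h2 h1)
      have e3 : ‖α‖ ^ (n - t) * ‖T^[n - t] (P n) - α ^ t * x‖ ≤ ‖α‖ ^ (n - t) * C := by
        rw [hC]
        nlinarith
      exact le_of_mul_le_mul_left e3 hαj
    -- points beyond `n`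
    have hΩne : ∀ t, ∃ N, N ∈ Ω t := by
      intro t
      refine ⟨P t, hPmem t, ?_⟩
      rw [norm_sub_rev]
      linarith [hP t]
    choose Z hZ using hΩne
    refine ⟨fun t => if t ≤ n then T^[n - t] (P n) else Z t, ?_, ?_⟩
    · intro t _
      simp only
      split_ifs with ht
      · exact hmem t ht
      · exact hZ t
    · rw [Set.mem_iInter₂]
      intro t ht
      rw [Finset.mem_range] at ht
      rw [Set.mem_iUnion₂]
      have e1 : n - t = (n - (t + 1)) + 1 := by omega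
      obtain ⟨d, hd0, hd1, hd⟩ := hTd (T^[n - (t + 1)] (P n)) (hit _ _ (hPmem n))
      refine ⟨d, Finset.mem_Ico.mpr ⟨hd0, hd1⟩, ?_⟩
      change (if t + 1 ≤ n then T^[n - (t + 1)] (P n) else Z (t + 1)) =
        α * (if t ≤ n then T^[n - t] (P n) else Z t) + d
      rw [if_pos (by omega), if_pos (by omega), e1, Function.iterate_succ_apply']
      exact hd
  obtain ⟨M, hM⟩ := IsCompact.nonempty_iInter_of_sequence_nonempty_isCompact_isClosed K
    (by
      intro n
      apply Set.inter_subset_inter_right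
      apply Set.biInter_subset_biInter_left
      intro t ht
      simp only [Finset.coe_range, Set.mem_Iio] at ht ⊢
      omega) hne (hcompact 0) (fun n => (hcompact n).isClosed)
  rw [Set.mem_iInter] at hM
  have hMΩ : ∀ t, M t ∈ Ω t := fun t => (hM 0).1 t (Set.mem_univ _)
  have hMd : ∀ t, ∃ d : ℤ, (0 ≤ d ∧ d < |a0|) ∧ M (t + 1) = α * M t + d := by
    intro t
    have h1 := (hM (t + 1)).2
    rw [Set.mem_iInter₂] at h1
    have h2 := h1 t (Finset.mem_range.mpr (Nat.lt_succ_self t))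
    rw [Set.mem_iUnion₂] at h2
    obtain ⟨d, hd, hd'⟩ := h2
    exact ⟨d, Finset.mem_Ico.mp hd, hd'⟩
  choose e he1 he2 using hMd
  refine ⟨M, e, ⟨fun t => (hMΩ t).1, he1, he2⟩, ?_⟩
  rw [tendsto_iff_norm_sub_tendsto_zero]
  have hlim : Tendsto (fun t : ℕ => C / ‖α‖ ^ t) atTop (nhds 0) := by
    have := (tendsto_pow_atTop_nhds_zero_of_lt_one (r := ‖α‖⁻¹) (by positivity)
      (inv_lt_one_of_one_lt₀ h.norm_gt)).const_mul C
    simpa [inv_pow, div_eq_mul_inv] using this
  refine squeeze_zero (fun t => norm_nonneg _) (fun t => ?_) hlim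
  have hαt : 0 < ‖α‖ ^ t := by positivity
  rw [le_div_iff₀ hαt, ← norm_pow, ← norm_mul]
  have e3 : (M t / α ^ t - x) * α ^ t = M t - α ^ t * x := by
    field_simp
  rw [e3]
  exact (hMΩ t).2

end Pool.Agent.Hhelper68.Gauss
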